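import Pool.Agent.SelfMinorPw.Strip
import Pool.Agent.SelfMinorPk.Piece

/-!
# Strips of bounded width are well-quasi-ordered
-/

namespace SelfMinorPw

open Relation SelfMinor SelfMinorPk

universe u

section bags

variable {V : Type*} {r : V → V → Prop} {b m s : ℕ} {B : ℕ → Set V} {C F F1 F2 : Set V}
  {l t x : Fin s → V} {S : Fin s → Set V}

lemma Bags.rev (h : Bags r b F m B) : Bags r b F m (fun i => B (m - i)) where
  sub i := h.sub _
  card i := h.card _
  cov v hv := by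
    obtain ⟨i, hi, hvi⟩ := h.cov v hv
    exact ⟨m - i, Nat.sub_le _ _, by rwa [Nat.sub_sub_self hi]⟩
  edge u hu v hv huv := by
    obtain ⟨i, hi, hui, hvi⟩ := h.edge u hu v hv huv
    exact ⟨m - i, Nat.sub_le _ _, by rwa [Nat.sub_sub_self hi], by rwa [Nat.sub_sub_self hi]⟩
  conv i j k hij hjk hk v hi hk' :=
    h.conv (m - k) (m - j) (m - i) (by omega) (by omega) (by omega) v hk' hi

/-- a connected set meets an interval of bags -/
lemma Bags.meets (h : Bags r b F m B) (hC : Con r C) (hCF : C ⊆ F) {i j k : ℕ} (hij : i ≤ j)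
    (hjk : j ≤ k) (hk : k ≤ m) (h1 : (C ∩ B i).Nonempty) (h2 : (C ∩ B k).Nonempty) :
    (C ∩ B j).Nonempty := by
  by_contra hcon
  have hno : ∀ v ∈ C, v ∉ B j := fun v hv hvj => hcon ⟨v, hv, hvj⟩
  obtain ⟨x, hx, hxi⟩ := h1
  obtain ⟨y, hy, hyk⟩ := h2
  obtain ⟨u, hu, ⟨i', hi', hui'⟩, v, hv, hvZ, huv⟩ := exists_cross
    (Z := {v | ∃ i' ≤ j, v ∈ B i'}) hC hx ⟨i, hij, hxi⟩ hy (by
      rintro ⟨i', hi', hyi'⟩
      exact hno y hy (h.conv i' j k hi' hjk hk y hyi' hyk))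
  obtain ⟨n, hn, hun, hvn⟩ := h.edge u (hCF hu) v (hCF hv) huv
  have hjn : j < n := by
    by_contra hle
    exact hvZ ⟨n, not_lt.1 hle, hvn⟩
  exact hno u hu (h.conv i' j n hi' hjn.le hn u hui' hun)

/-- path decompositions of one side of a separation -/
lemma Bags.side (h : Bags r b F m B) (hF : F.Finite) (h1 : F1 ⊆ F) (h2 : F2 ⊆ F)
    (hx : F1 ∩ F2 ⊆ Set.range x) (hS : ∀ a, Con r (S a)) (hSF : ∀ a, S a ⊆ F2)
    (hxS : ∀ a, x a ∈ S a) (hd : ∀ a b, a ≠ b → Disjoint (S a) (S b)) (hx1 : ∀ a, x a ∈ F1) :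
    ∃ B', Bags r b F1 m B' ∧ (∀ i, F1 ∩ B i ⊆ B' i) ∧
      ∀ i a, (S a ∩ B i).Nonempty → x a ∈ B' i := by
  classical
  set M : V → Set V := fun w => {z | z = w ∨ ∃ a, w = x a ∧ z ∈ S a} with hM
  have hMs : ∀ w, w ∈ M w := fun w => Or.inl rfl
  have hMc : ∀ w, Con r (M w) := by
    intro w
    refine con_of_star (a := w) (fun z hz => ?_)
    rcases hz with rfl | ⟨a, rfl, hz⟩
    · exact ⟨{z}, Set.singleton_subset_iff.2 (hMs z), con_singleton r z, rfl, rfl⟩
    · exact ⟨S a, fun y hy => Or.inr ⟨a, rfl, hy⟩, hS a, hxS a, hz⟩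
  have hMF : ∀ w ∈ F1, M w ⊆ F := by
    rintro w hw z (rfl | ⟨a, rfl, hz⟩)
    · exact h1 hw
    · exact h2 (hSF a hz)
  have huniq : ∀ a b v, v ∈ S a → v ∈ S b → a = b := by
    intro a b v ha hb
    by_contra hne
    exact Set.disjoint_left.1 (hd a b hne) ha hb
  have hMd1 : ∀ u ∈ F1, ∀ a, u ∈ S a → u = x a := by
    intro u hu a hua
    obtain ⟨c, rfl⟩ := hx ⟨hu, hSF a hua⟩
    rw [huniq c a _ (hxS c) hua]
  have hMd : ∀ u ∈ F1, ∀ v ∈ F1, ∀ z, z ∈ M u → z ∈ M v → u = v := by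
    rintro u hu v hv z (rfl | ⟨a, rfl, hz⟩) (hzv | ⟨c, rfl, hz'⟩)
    · exact hzv
    · exact hMd1 _ hu c hz'
    · subst hzv
      exact (hMd1 _ hv a hz).symm
    · rw [huniq a c z hz hz']
  refine ⟨fun i => {w | w ∈ F1 ∧ (M w ∩ B i).Nonempty}, ⟨fun i w hw => hw.1, fun i => ?_,
    fun v hv => ?_, fun u hu v hv huv => ?_, fun i j k hij hjk hk v hi hk' => ?_⟩,
    fun i w hw => ⟨hw.1, w, hMs w, hw.2⟩, fun i a ⟨z, hz, hzi⟩ =>
      ⟨hx1 a, z, Or.inr ⟨a, rfl, hz⟩, hzi⟩⟩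
  · refine le_trans ?_ (h.card i)
    have hch : ∀ w, ∃ z, w ∈ {w | w ∈ F1 ∧ (M w ∩ B i).Nonempty} → z ∈ M w ∩ B i := by
      intro w
      by_cases hw : w ∈ {w | w ∈ F1 ∧ (M w ∩ B i).Nonempty}
      · obtain ⟨z, hz⟩ := hw.2
        exact ⟨z, fun _ => hz⟩
      · exact ⟨w, fun h => absurd h hw⟩
    choose f hf using hch
    refine Set.ncard_le_ncard_of_injOn f (fun w hw => (hf w hw).2) ?_ (hF.subset (h.sub i))
    intro u hu v hv huv
    exact hMd u hu.1 v hv.1 (f u) (hf u hu).1 (huv ▸ (hf v hv).1)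
  · obtain ⟨i, hi, hvi⟩ := h.cov v (h1 hv)
    exact ⟨i, hi, hv, v, hMs v, hvi⟩
  · obtain ⟨i, hi, hui, hvi⟩ := h.edge u (h1 hu) v (h1 hv) huv
    exact ⟨i, hi, ⟨hu, u, hMs u, hui⟩, ⟨hv, v, hMs v, hvi⟩⟩
  · exact ⟨hi.1, h.meets (hMc v) (hMF v hi.1) hij hjk hk hi.2 hk'.2⟩

/-- the part of a strand in one side -/
lemma cut_strand {S : Set V} {x0 l0 : V} (hS : Con r S) (hSF : S ⊆ F1 ∪ F2)
    (hedge : ∀ u ∈ F1 ∪ F2, ∀ v ∈ F1 ∪ F2, r u v → (u ∈ F1 ∧ v ∈ F1) ∨ (u ∈ F2 ∧ v ∈ F2))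
    (hx : ∀ v ∈ S, v ∈ F1 → v ∈ F2 → v = x0) (hx0 : x0 ∈ S) (hx1 : x0 ∈ F1) (hl : l0 ∈ S)
    (hl1 : l0 ∈ F1) (hr : ∀ u v, r u v → r v u) : l0 ∈ cc r (S ∩ F1) x0 := by
  have hl' : l0 ∈ S ∩ F1 := ⟨hl, hl1⟩
  have hsub : cc r (S ∩ F1) l0 ⊆ S ∩ F1 := cc_subset hl'
  have h1 : x0 ∈ cc r (S ∩ F1) l0 := by
    by_contra hno
    obtain ⟨u, hu, huZ, v, hv, hvZ, huv⟩ := exists_cross (Z := cc r (S ∩ F1) l0) hS hl
      (mem_cc _ _) hx0 hno
    have hu1 := (hsub huZ).2
    rcases hedge u (hSF hu) v (hSF hv) huv with ⟨_, h⟩ | ⟨h, _⟩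
    · exact hvZ (cc_closed huZ (hsub huZ) ⟨hv, h⟩ huv)
    · exact hno (hx u hu hu1 h ▸ huZ)
  rw [cc_eq_of_mem hr hl' h1]
  exact mem_cc _ _

lemma trim_left (h : Bags r b F m B) (hm : 0 < m) (hS : Str r F l t S)
    (hl : Set.range l ⊆ B 0) (ht : Set.range t ⊆ B m) (h0 : B 0 ⊆ Set.range l) :
    ∃ B', Bags r b F (m - 1) B' ∧ Set.range l ⊆ B' 0 ∧ Set.range t ⊆ B' (m - 1) := by
  have hl1 : ∀ a, l a ∈ B 1 := by
    intro a
    by_contra h1
    have hno : ∀ i ≤ m, l a ∈ B i → i = 0 := by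
      intro i hi hli
      by_contra hi0
      exact h1 (h.conv 0 1 i (Nat.zero_le 1) (by omega) hi _ (hl ⟨a, rfl⟩) hli)
    have hne : t a ∉ ({l a} : Set V) := by
      intro h2
      have h3 : t a = l a := h2
      have := hno m le_rfl (h3 ▸ ht ⟨a, rfl⟩)
      omega
    obtain ⟨u, hu, huZ, v, hv, hvZ, huv⟩ := exists_cross (hS.con a) (hS.left a)
      (Set.mem_singleton (l a)) (hS.right a) hne
    rw [Set.mem_singleton_iff] at huZ
    subst huZ
    obtain ⟨i, hi, hui, hvi⟩ := h.edge _ (hS.sub a hu) v (hS.sub a hv) huv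
    rw [hno i hi hui] at hvi
    obtain ⟨c, rfl⟩ := h0 hvi
    exact hvZ (congrArg l (hS.eq_of_mem (hS.left c) hv))
  refine ⟨fun i => B (i + 1), ⟨fun i => h.sub _, fun i => h.card _, fun v hv => ?_,
    fun u hu v hv huv => ?_, fun i j k hij hjk hk v hi hk' =>
      h.conv (i + 1) (j + 1) (k + 1) (by omega) (by omega) (by omega) v hi hk'⟩, ?_, ?_⟩
  · obtain ⟨i, hi, hvi⟩ := h.cov v hv
    cases i with
    | zero =>
      obtain ⟨a, rfl⟩ := h0 hvi
      exact ⟨0, Nat.zero_le _, hl1 a⟩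
    | succ i => exact ⟨i, by omega, hvi⟩
  · obtain ⟨i, hi, hui, hvi⟩ := h.edge u hu v hv huv
    cases i with
    | zero =>
      obtain ⟨a, rfl⟩ := h0 hui
      obtain ⟨c, rfl⟩ := h0 hvi
      exact ⟨0, Nat.zero_le _, hl1 a, hl1 c⟩
    | succ i => exact ⟨i, by omega, hui, hvi⟩
  · rintro _ ⟨a, rfl⟩
    exact hl1 a
  · have : m - 1 + 1 = m := by omega
    dsimp only
    rw [this]
    exact ht

/-- the ends can be extended unless the strip is small -/
lemma big_ends (hF : F.Finite) (hS : Str r F l t S)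
    (hB : ∃ m B, Bags r b F m B ∧ Set.range l ⊆ B 0 ∧ Set.range t ⊆ B m)
    (hb : ¬ F.ncard ≤ b) : ∃ m B, Bags r b F m B ∧ Set.range l ⊆ B 0 ∧ Set.range t ⊆ B m ∧
      (∃ v ∈ B 0, v ∉ Set.range l) ∧ ∃ v ∈ B m, v ∉ Set.range t := by
  classical
  obtain ⟨m, ⟨B, h, hl, ht⟩, hmin⟩ : ∃ m, (∃ B, Bags r b F m B ∧ Set.range l ⊆ B 0 ∧
      Set.range t ⊆ B m) ∧ ∀ m' < m, ¬ ∃ B, Bags r b F m' B ∧ Set.range l ⊆ B 0 ∧
      Set.range t ⊆ B m' := ⟨Nat.find hB, Nat.find_spec hB, fun m' h => Nat.find_min hB h⟩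
  have hm : 0 < m := by
    rcases Nat.eq_zero_or_pos m with rfl | hm
    · exfalso
      apply hb
      refine (Set.ncard_le_ncard ?_ (hF.subset (h.sub 0))).trans (h.card 0)
      intro v hv
      obtain ⟨i, hi, hvi⟩ := h.cov v hv
      rwa [Nat.le_zero.1 hi] at hvi
    · exact hm
  refine ⟨m, B, h, hl, ht, ?_, ?_⟩
  · by_contra hcon
    push Not at hcon
    exact hmin (m - 1) (by omega) (trim_left h hm hS hl ht hcon)
  · by_contra hcon
    push Not at hcon
    obtain ⟨B', h1, h2, h3⟩ := trim_left h.rev hm hS.symm (by simpa using ht)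
      (by simpa using hl) (by
        change B (m - 0) ⊆ Set.range t
        rw [Nat.sub_zero]
        exact hcon)
    refine hmin (m - 1) (by omega) ⟨_, h1.rev, ?_, ?_⟩
    · simpa using h3
    · simpa using h2

/-- Menger's alternative -/
lemma up_or_sep (hr : ∀ u v, r u v → r v u) (hS : Str r F l t S) {v v' : V} (hv : v ∈ F)
    (hvl : v ∉ Set.range l) (hvt : v' ∉ Set.range t) :
    (∃ (l' t' : Fin (s + 1) → V) (S' : Fin (s + 1) → Set V) (σ π : Fin s → Fin (s + 1)),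
      Str r F l' t' S' ∧ Set.range l' ⊆ insert v (Set.range l) ∧
      Set.range t' ⊆ insert v' (Set.range t) ∧ (∀ a, l a = l' (σ a)) ∧ ∀ a, t a = t' (π a)) ∨
    ∃ X : Finset V, X.card ≤ s ∧ Sep (fun u w => r u w ∧ u ∈ F ∧ w ∈ F) (X : Set V)
      (insert v (Set.range l)) (insert v' (Set.range t)) := by
  classical
  set q : V → V → Prop := fun u w => r u w ∧ u ∈ F ∧ w ∈ F with hq
  have hqs : ∀ u v, q u v → q v u := fun u v h => ⟨hr _ _ h.1, h.2.2, h.2.1⟩
  have hA : ((insert v (Finset.univ.image l) : Finset V) : Set V) = insert v (Set.range l) := by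
    simp
  have hC : ((insert v' (Finset.univ.image t) : Finset V) : Set V) =
      insert v' (Set.range t) := by
    simp
  have hAc : (insert v (Finset.univ.image l)).card = s + 1 := by
    rw [Finset.card_insert_of_notMem (by simpa using hvl),
      Finset.card_image_of_injective _ hS.inj, Finset.card_univ, Fintype.card_fin]
  have hCc : (insert v' (Finset.univ.image t)).card = s + 1 := by
    rw [Finset.card_insert_of_notMem (by simpa using hvt),
      Finset.card_image_of_injective _ hS.symm.inj, Finset.card_univ, Fintype.card_fin]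
  by_cases hsep : ∀ X : Finset V, Sep q (X : Set V)
      ((insert v (Finset.univ.image l) : Finset V) : Set V)
      ((insert v' (Finset.univ.image t) : Finset V) : Set V) → s + 1 ≤ X.card
  · left
    obtain ⟨C, c1, c2, c3, c4⟩ := menger hqs _ _ _ hsep
    rw [hA] at c3
    rw [hC] at c4
    choose l' hl' using c3
    choose t' ht' using c4
    have hli : Function.Injective l' := by
      intro i j hij
      by_contra hne
      exact Set.disjoint_left.1 (c2 i j hne) (hl' i).1 (hij ▸ (hl' j).1)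
    have hti : Function.Injective t' := by
      intro i j hij
      by_contra hne
      exact Set.disjoint_left.1 (c2 i j hne) (ht' i).1 (hij ▸ (ht' j).1)
    have himl : Finset.univ.image l' = insert v (Finset.univ.image l) := by
      refine Finset.eq_of_subset_of_card_le (fun w hw => ?_) ?_
      · obtain ⟨i, -, rfl⟩ := Finset.mem_image.1 hw
        rw [← Finset.mem_coe, hA]
        exact (hl' i).2
      · rw [hAc, Finset.card_image_of_injective _ hli, Finset.card_univ, Fintype.card_fin]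
    have himt : Finset.univ.image t' = insert v' (Finset.univ.image t) := by
      refine Finset.eq_of_subset_of_card_le (fun w hw => ?_) ?_
      · obtain ⟨i, -, rfl⟩ := Finset.mem_image.1 hw
        rw [← Finset.mem_coe, hC]
        exact (ht' i).2
      · rw [hCc, Finset.card_image_of_injective _ hti, Finset.card_univ, Fintype.card_fin]
    have hσ : ∀ a, ∃ i, l a = l' i := by
      intro a
      have h1 : l a ∈ Finset.univ.image l' := by
        rw [himl]
        exact Finset.mem_insert_of_mem (Finset.mem_image_of_mem l (Finset.mem_univ a))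
      obtain ⟨i, -, hi⟩ := Finset.mem_image.1 h1
      exact ⟨i, hi.symm⟩
    have hπ : ∀ a, ∃ i, t a = t' i := by
      intro a
      have h1 : t a ∈ Finset.univ.image t' := by
        rw [himt]
        exact Finset.mem_insert_of_mem (Finset.mem_image_of_mem t (Finset.mem_univ a))
      obtain ⟨i, -, hi⟩ := Finset.mem_image.1 h1
      exact ⟨i, hi.symm⟩
    choose σ hσ using hσ
    choose π hπ using hπ
    refine ⟨l', t', C, σ, π, ⟨fun a => (c1 a).mono fun u v h => h.1, fun a => ?_,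
      fun a => (hl' a).1, fun a => (ht' a).1, c2⟩, ?_, ?_, hσ, hπ⟩
    · intro w hw
      have hlF : l' a ∈ F := by
        rcases (hl' a).2 with h | ⟨c, h⟩
        · rw [h]
          exact hv
        · rw [← h]
          exact hS.sub c (hS.left c)
      exact rtg_closed (Z := F) (fun _ _ _ h => h.1.2.2) hlF (c1 a _ (hl' a).1 w hw)
    · rintro _ ⟨a, rfl⟩
      exact (hl' a).2
    · rintro _ ⟨a, rfl⟩
      exact (ht' a).2
  · right
    push Not at hsep
    obtain ⟨X, hX, hXc⟩ := hsep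
    rw [hA, hC] at hX
    exact ⟨X, by omega, hX⟩

end bags

/-- the class of strips of width `b` -/
def CC (b q s : ℕ) : Set (Strip.{u} q s) :=
  {P | (∃ S, Str P.r P.F P.l P.t S) ∧ ∃ m B, Bags P.r b P.F m B ∧ Set.range P.l ⊆ B 0 ∧
    Set.range P.t ⊆ B m}

/-- changing the ends -/
def Strip.sel {q s s' : ℕ} (P : Strip.{u} q s) (σ π : Fin s' → Fin s) : Strip.{u} q s' :=
  ⟨P.V, P.r, P.symm, P.F, P.fin, P.l ∘ σ, P.t ∘ π, P.lab⟩

lemma Lq.sel {q s s' : ℕ} {P Q : Strip.{u} q s} (h : Lq P Q) (σ π : Fin s' → Fin s) :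
    Lq (P.sel σ π) (Q.sel σ π) := by
  obtain ⟨θ, h1, h2, h3⟩ := h
  exact ⟨θ, h1, fun a => h2 (σ a), fun a => h3 (π a)⟩

/-- small strips -/
lemma small_pwo (b q s : ℕ) : {P : Strip.{u} q s | P.F.ncard ≤ b ∧ (∀ a, P.l a ∈ P.F) ∧
    ∀ a, P.t a ∈ P.F}.PartiallyWellOrderedOn Lq := by
  classical
  rw [Set.partiallyWellOrderedOn_iff_exists_lt]
  intro f hf
  have he : ∀ n, ∃ e : (f n).V → Fin (b + 1), Set.InjOn e (f n).F := by
    intro n
    have hcard : (f n).fin.toFinset.card ≤ b + 1 := by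
      rw [← Set.ncard_eq_toFinset_card _ (f n).fin]
      exact (hf n).1.trans (Nat.le_succ b)
    refine ⟨fun v => if h : v ∈ (f n).F then Fin.castLE hcard
      ((f n).fin.toFinset.equivFin ⟨v, (f n).fin.mem_toFinset.2 h⟩) else 0, ?_⟩
    intro u hu v hv huv
    dsimp only at huv
    rw [dif_pos hu, dif_pos hv] at huv
    have h1 := Fin.castLE_injective hcard huv
    exact congrArg Subtype.val ((f n).fin.toFinset.equivFin.injective h1)
  choose e he using he
  set code : ℕ → Set (Fin (b + 1)) × (Fin (b + 1) → Fin (b + 1) → Prop) ×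
      (Fin s → Fin (b + 1)) × (Fin s → Fin (b + 1)) × (Fin (b + 1) → Fin q → Prop) := fun n =>
    (e n '' (f n).F, fun i j => ∃ u ∈ (f n).F, ∃ v ∈ (f n).F, e n u = i ∧ e n v = j ∧
      (f n).r u v, fun a => e n ((f n).l a), fun a => e n ((f n).t a),
      fun i k => ∃ u ∈ (f n).F, e n u = i ∧ (f n).lab u k) with hcode
  obtain ⟨g, hg⟩ := exists_const_subseq code
  have h01 : code (g 0) = code (g 1) := (hg 1).symm
  refine ⟨g 0, g 1, g.strictMono Nat.zero_lt_one, ?_⟩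
  generalize g 0 = i at h01 ⊢
  generalize g 1 = j at h01 ⊢
  rw [hcode] at h01
  simp only [Prod.mk.injEq] at h01
  obtain ⟨k1, k2, k3, k4, k5⟩ := h01
  refine ⟨fun v => {w | w ∈ (f j).F ∧ e j w = e i v}, ⟨fun v hv => ?_, fun v hv => ?_,
    fun v hv w hw => hw.1, fun u hu v hv huv => ?_, fun u hu v hv huv _ => ?_,
    fun v hv k hk => ?_⟩, fun a => ?_, fun a => ?_⟩
  · have : e i v ∈ e j '' (f j).F := by
      rw [← k1]
      exact ⟨v, hv, rfl⟩
    obtain ⟨w, hw, hw'⟩ := this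
    exact ⟨w, hw, hw'⟩
  · intro w hw w' hw'
    have : w = w' := he j hw.1 hw'.1 (hw.2.trans hw'.2.symm)
    subst this
    exact .refl
  · rw [Set.disjoint_left]
    intro w hw hw'
    exact huv (he i hu hv (hw.2.symm.trans hw'.2))
  · have h1 : ∃ u' ∈ (f i).F, ∃ v' ∈ (f i).F, e i u' = e i u ∧ e i v' = e i v ∧
        (f i).r u' v' := ⟨u, hu, v, hv, rfl, rfl, huv⟩
    have h2 := congrFun (congrFun k2 (e i u)) (e i v)
    rw [h2] at h1
    obtain ⟨u', hu', v', hv', e1, e2, h3⟩ := h1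
    exact ⟨u', ⟨hu', e1⟩, v', ⟨hv', e2⟩, h3⟩
  · have h1 : ∃ u' ∈ (f i).F, e i u' = e i v ∧ (f i).lab u' k := ⟨v, hv, rfl, hk⟩
    have h2 := congrFun (congrFun k5 (e i v)) k
    rw [h2] at h1
    obtain ⟨u', hu', e1, h3⟩ := h1
    exact ⟨u', ⟨hu', e1⟩, h3⟩
  · exact ⟨(hf j).2.1 a, (congrFun k3 a).symm⟩
  · exact ⟨(hf j).2.2 a, (congrFun k4 a).symm⟩

/-- strips with an extra strand -/
lemma up_pwo {b q s : ℕ} (h : (CC.{u} b q (s + 1)).PartiallyWellOrderedOn Lq) :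
    {P : Strip.{u} q s | ∃ Q ∈ CC.{u} b q (s + 1), ∃ σ π : Fin s → Fin (s + 1),
      P = Q.sel σ π}.PartiallyWellOrderedOn Lq := by
  classical
  rw [Set.partiallyWellOrderedOn_iff_exists_lt]
  intro f hf
  choose Q hQ σ π hσ using hf
  obtain ⟨g, hg⟩ := exists_const_subseq (fun n => (σ n, π n))
  obtain ⟨i, j, hij, hle⟩ := h.exists_lt (f := fun n => Q (g n)) (fun n => hQ _)
  refine ⟨g i, g j, g.strictMono hij, ?_⟩
  have e1 := hg i
  have e2 := hg j
  simp only [Prod.mk.injEq] at e1 e2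
  rw [hσ (g i), hσ (g j), e1.1, e1.2, e2.1, e2.2]
  exact hle.sel _ _

/-- the factorization -/
lemma exists_fac {b q s : ℕ} {V : Type u} {r : V → V → Prop} {symm : ∀ u v, r u v → r v u}
    {F : Set V} {fin : F.Finite} {l t : Fin s → V} {lab : V → Fin q → Prop} {S : Fin s → Set V}
    (hS : Str r F l t S) {m : ℕ} {B : ℕ → Set V} (h : Bags r b F m B)
    (hl : Set.range l ⊆ B 0) (ht : Set.range t ⊆ B m) {v v' : V} (hv : v ∈ F)
    (hvl : v ∉ Set.range l) (hv' : v' ∈ F) (hvt : v' ∉ Set.range t) {X : Finset V}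
    (hXc : X.card ≤ s) (hX : Sep (fun u w => r u w ∧ u ∈ F ∧ w ∈ F) (X : Set V)
      (insert v (Set.range l)) (insert v' (Set.range t))) :
    ∃ P1 ∈ CC.{u} b q s, ∃ P2 ∈ CC.{u} b q s, Fac ⟨V, r, symm, F, fin, l, t, lab⟩ P1 P2 := by
  classical
  set p : V → V → Prop := fun u w => r u w ∧ u ∈ F ∧ w ∈ F with hp
  have hps : ∀ u v, p u v → p v u := fun u v h => ⟨symm _ _ h.1, h.2.2, h.2.1⟩
  have hlF : ∀ a, l a ∈ F := fun a => hS.sub a (hS.left a)
  have htF : ∀ a, t a ∈ F := fun a => hS.sub a (hS.right a)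
  -- each strand meets X
  have hmeet : ∀ a, ∃ x, x ∈ S a ∧ x ∈ X := by
    intro a
    by_contra hcon
    push Not at hcon
    refine hX (l a) (Or.inr ⟨a, rfl⟩) (hcon _ (hS.left a)) (t a) (Or.inr ⟨a, rfl⟩) ?_
    refine rtg_mono (fun u w h => ?_) (hS.con a _ (hS.left a) _ (hS.right a))
    exact ⟨⟨h.1, hS.sub a h.2.1, hS.sub a h.2.2⟩, hcon _ h.2.1, hcon _ h.2.2⟩
  choose x hxS hxX using hmeet
  have hxi : Function.Injective x := fun a c hac => hS.eq_of_mem (hxS a) (hac ▸ hxS c)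
  have hXx : (X : Set V) = Set.range x := by
    have h1 : Finset.univ.image x = X := by
      refine Finset.eq_of_subset_of_card_le (fun w hw => ?_) ?_
      · obtain ⟨a, -, rfl⟩ := Finset.mem_image.1 hw
        exact hxX a
      · rw [Finset.card_image_of_injective _ hxi, Finset.card_univ, Fintype.card_fin]
        exact hXc
    rw [← h1]
    simp
  have hxF : ∀ a, x a ∈ F := fun a => hS.sub a (hxS a)
  set R : Set V := RS p (X : Set V) (insert v (Set.range l)) with hR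
  have hAF : insert v (Set.range l) ⊆ F := by
    rintro w (rfl | ⟨a, rfl⟩)
    · exact hv
    · exact hlF a
  have hRF : R ⊆ F := by
    rintro w ⟨a, ha, _, haw⟩
    exact rtg_closed (Z := F) (fun _ _ _ h => h.1.2.2) (hAF ha) haw
  have hRX : ∀ w ∈ R, w ∉ Set.range x := by
    intro w hw
    rw [← hXx]
    exact RS.notMem hw
  set F1 : Set V := Set.range x ∪ R with hF1
  set F2 : Set V := F \ R with hF2
  have hxsub : Set.range x ⊆ F := by
    rintro _ ⟨a, rfl⟩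
    exact hxF a
  have hU : F1 ∪ F2 = F := by
    ext w
    constructor
    · rintro ((h | h) | h)
      · exact hxsub h
      · exact hRF h
      · exact h.1
    · intro h
      by_cases hw : w ∈ R
      · exact Or.inl (Or.inr hw)
      · exact Or.inr ⟨h, hw⟩
  have hI : F1 ∩ F2 = Set.range x := by
    ext w
    constructor
    · rintro ⟨h | h, h'⟩
      · exact h
      · exact absurd h h'.2
    · intro h
      exact ⟨Or.inl h, hxsub h, fun h' => hRX w h' h⟩
  have hstep : ∀ u ∈ R, ∀ w ∈ F, r u w → w ∈ F1 := by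
    intro u hu w hw huw
    by_cases hwX : w ∈ Set.range x
    · exact Or.inl hwX
    · right
      refine RS.step hu ⟨huw, hRF hu, hw⟩ ?_
      rw [hXx]
      exact hwX
  have hedge : ∀ u ∈ F1 ∪ F2, ∀ w ∈ F1 ∪ F2, r u w →
      (u ∈ F1 ∧ w ∈ F1) ∨ (u ∈ F2 ∧ w ∈ F2) := by
    intro u hu w hw huw
    rw [hU] at hu hw
    by_cases huR : u ∈ R
    · exact Or.inl ⟨Or.inr huR, hstep u huR w hw huw⟩
    · by_cases hwR : w ∈ R
      · exact Or.inl ⟨hstep w hwR u hu (symm _ _ huw), Or.inr hwR⟩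
      · exact Or.inr ⟨⟨hu, huR⟩, ⟨hw, hwR⟩⟩
  have hA1 : insert v (Set.range l) ⊆ F1 := by
    intro w hw
    by_cases hwX : w ∈ Set.range x
    · exact Or.inl hwX
    · right
      refine RS.base hw ?_
      rw [hXx]
      exact hwX
  have hA2 : insert v' (Set.range t) ⊆ F2 := by
    intro w hw
    refine ⟨?_, ?_⟩
    · rcases hw with rfl | ⟨a, rfl⟩
      · exact hv'
      · exact htF a
    · rintro ⟨a, ha, haX, haw⟩
      exact hX a ha haX w hw haw
  have hSx : ∀ a, ∀ w ∈ S a, w ∈ F1 → w ∈ F2 → w = x a := by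
    intro a w hw h1 h2
    have : w ∈ F1 ∩ F2 := ⟨h1, h2⟩
    rw [hI] at this
    obtain ⟨c, rfl⟩ := this
    rw [hS.eq_of_mem (hxS c) hw]
  have hSU : ∀ a, S a ⊆ F1 ∪ F2 := fun a => by
    rw [hU]
    exact hS.sub a
  have hx1 : ∀ a, x a ∈ F1 := fun a => Or.inl ⟨a, rfl⟩
  have hx2 : ∀ a, x a ∈ F2 := fun a => (hI.symm.subset ⟨a, rfl⟩ : x a ∈ F1 ∩ F2).2
  have hcs1 : ∀ a, cc r (S a ∩ F1) (x a) ⊆ S a ∩ F1 := fun a => cc_subset ⟨hxS a, hx1 a⟩
  have hcs2 : ∀ a, cc r (S a ∩ F2) (x a) ⊆ S a ∩ F2 := fun a => cc_subset ⟨hxS a, hx2 a⟩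
  have hstr1 : Str r F1 l x (fun a => cc r (S a ∩ F1) (x a)) := by
    refine ⟨fun a => con_cc symm _, fun a w hw => (hcs1 a hw).2, fun a => ?_,
      fun a => mem_cc _ _, fun a c hac => ?_⟩
    · exact cut_strand (hS.con a) (hSU a) hedge (hSx a) (hxS a) (hx1 a) (hS.left a)
        (hA1 (Or.inr ⟨a, rfl⟩)) symm
    · exact (hS.disj a c hac).mono (fun w hw => (hcs1 a hw).1) (fun w hw => (hcs1 c hw).1)
  have hstr2 : Str r F2 x t (fun a => cc r (S a ∩ F2) (x a)) := by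
    refine ⟨fun a => con_cc symm _, fun a w hw => (hcs2 a hw).2, fun a => mem_cc _ _,
      fun a => ?_, fun a c hac => ?_⟩
    · refine cut_strand (F2 := F1) (hS.con a) (by rw [Set.union_comm]; exact hSU a) ?_
        (fun w hw h1 h2 => hSx a w hw h2 h1) (hxS a) (hx2 a) (hS.right a)
        (hA2 (Or.inr ⟨a, rfl⟩)) symm
      intro u hu w hw huw
      rw [Set.union_comm] at hu hw
      exact (hedge u hu w hw huw).symm
    · exact (hS.disj a c hac).mono (fun w hw => (hcs2 a hw).1) (fun w hw => (hcs2 c hw).1)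
  have hF1F : F1 ⊆ F := by
    rw [← hU]
    exact Set.subset_union_left
  have hF2F : F2 ⊆ F := Set.sdiff_subset
  obtain ⟨B1, b11, b12, b13⟩ := h.side fin hF1F hF2F hI.subset hstr2.con hstr2.sub hstr2.left
    hstr2.disj hx1
  obtain ⟨B2, b21, b22, b23⟩ := h.side fin hF2F hF1F
    (by rw [Set.inter_comm]; exact hI.subset) hstr1.con hstr1.sub hstr1.right
    hstr1.disj hx2
  refine ⟨⟨V, r, symm, F1, fin.subset hF1F, l, x, lab⟩, ⟨⟨_, hstr1⟩, m, B1, b11, ?_, ?_⟩,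
    ⟨V, r, symm, F2, fin.subset hF2F, x, t, lab⟩, ⟨⟨_, hstr2⟩, m, B2, b21, ?_, ?_⟩,
    Fac.mk hU hI hedge hstr1 hstr2 ?_ ?_⟩
  · rintro _ ⟨a, rfl⟩
    exact b12 0 ⟨hA1 (Or.inr ⟨a, rfl⟩), hl ⟨a, rfl⟩⟩
  · rintro _ ⟨a, rfl⟩
    exact b13 m a ⟨t a, hstr2.right a, ht ⟨a, rfl⟩⟩
  · rintro _ ⟨a, rfl⟩
    exact b23 0 a ⟨l a, hstr1.left a, hl ⟨a, rfl⟩⟩
  · rintro _ ⟨a, rfl⟩
    exact b22 m ⟨hA2 (Or.inr ⟨a, rfl⟩), ht ⟨a, rfl⟩⟩
  · intro hsub
    have h1 : insert v (Set.range l) ⊆ Set.range x := by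
      intro w hw
      rw [← hI]
      exact ⟨hA1 hw, hsub (hA1 hw)⟩
    have h2 := Set.ncard_le_ncard h1 (Set.finite_range x)
    rw [Set.ncard_insert_of_notMem hvl (Set.finite_range l), ← Set.image_univ,
      ← Set.image_univ, Set.ncard_image_of_injective _ hS.inj,
      Set.ncard_image_of_injective _ hxi] at h2
    omega
  · intro hsub
    have h1 : insert v' (Set.range t) ⊆ Set.range x := by
      intro w hw
      rw [← hI]
      exact ⟨hsub (hA2 hw), hA2 hw⟩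
    have h2 := Set.ncard_le_ncard h1 (Set.finite_range x)
    rw [Set.ncard_insert_of_notMem hvt (Set.finite_range t), ← Set.image_univ,
      ← Set.image_univ, Set.ncard_image_of_injective _ hS.symm.inj,
      Set.ncard_image_of_injective _ hxi] at h2
    omega

/-- strips of bounded width are well-quasi-ordered -/
theorem cc_pwo (b q : ℕ) : ∀ n s, s + n = b + 1 → (CC.{u} b q s).PartiallyWellOrderedOn Lq := by
  classical
  intro n
  induction n with
  | zero =>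
    intro s hs
    have : CC.{u} b q s = ∅ := by
      rw [Set.eq_empty_iff_forall_notMem]
      rintro P ⟨⟨S, hS⟩, m, B, h, hl, ht⟩
      have h1 := Set.ncard_le_ncard hl (P.fin.subset (h.sub 0))
      rw [← Set.image_univ, Set.ncard_image_of_injective _ hS.inj, Set.ncard_univ,
        Nat.card_eq_fintype_card, Fintype.card_fin] at h1
      have := h.card 0
      omega
    rw [this]
    exact Set.partiallyWellOrderedOn_empty _
  | succ n ih =>
    intro s hs
    have h1 := ih (s + 1) (by omega)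
    refine pwo_of_factor Lq (fun P => P.F.ncard) (CC.{u} b q s) _
      ((small_pwo b q s).union (up_pwo h1)) Fac ?_ (fun P P1 P2 h => h.rk)
      (fun P P1 P2 h => h.le_left) (fun P P1 P2 h => h.le_right)
      (fun P P1 P2 Q Q1 Q2 h h' => h.glue h')
    rintro ⟨V, r, symm, F, fin, l, t, lab⟩ ⟨⟨S, hS⟩, hB⟩
    by_cases hb : F.ncard ≤ b
    · exact Or.inl (Or.inl ⟨hb, fun a => hS.sub a (hS.left a), fun a => hS.sub a (hS.right a)⟩)
    obtain ⟨m, B, h, hl, ht, ⟨v, hv, hvl⟩, v', hv', hvt⟩ := big_ends fin hS hB hb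
    rcases up_or_sep symm hS (h.sub 0 hv) hvl hvt with
      ⟨l', t', S', σ, π, k1, k2, k3, k4, k5⟩ | ⟨X, hXc, hX⟩
    · refine Or.inl (Or.inr ⟨⟨V, r, symm, F, fin, l', t', lab⟩, ⟨⟨S', k1⟩, m, B, h, ?_, ?_⟩,
        σ, π, ?_⟩)
      · exact k2.trans (Set.insert_subset hv hl)
      · exact k3.trans (Set.insert_subset hv' ht)
      · have e1 : l = l' ∘ σ := funext k4
        have e2 : t = t' ∘ π := funext k5
        subst e1 e2
        rfl
    · exact Or.inr (exists_fac hS h hl ht (h.sub 0 hv) hvl (h.sub m hv') hvt hXc hX)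

end SelfMinorPw
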