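import Pool.Agent.SelfMinorPw.Ray
import Pool.Agent.SelfMinorPw.Class

/-!
# Graphs of bounded path-width are proper minors of themselves
-/

namespace SelfMinorPw

open Relation SelfMinor SelfMinorPk

universe u

variable {V : Type u} {r : V → V → Prop} {C D U X Y Z : Set V}

lemma Bags.add {b m : ℕ} {B : ℕ → Set V} {F : Set V} (h : Bags r b F m B) (hX : X ⊆ F) :
    Bags r (b + X.ncard) F m (fun i => B i ∪ X) where
  sub i := Set.union_subset (h.sub i) hX
  card i := (Set.ncard_union_le _ _).trans (Nat.add_le_add_right (h.card i) _)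
  cov v hv := by
    obtain ⟨i, hi, hvi⟩ := h.cov v hv
    exact ⟨i, hi, Or.inl hvi⟩
  edge u hu v hv huv := by
    obtain ⟨i, hi, hui, hvi⟩ := h.edge u hu v hv huv
    exact ⟨i, hi, Or.inl hui, Or.inl hvi⟩
  conv i j k hij hjk hk v hi hk' := by
    by_cases hv : v ∈ X
    · exact Or.inr hv
    · exact Or.inl (h.conv i j k hij hjk hk v (hi.resolve_right hv) (hk'.resolve_right hv))

lemma Bags.mono {b b' m : ℕ} {B : ℕ → Set V} {F : Set V} (h : Bags r b F m B) (hb : b ≤ b') :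
    Bags r b' F m B :=
  ⟨h.sub, fun i => (h.card i).trans hb, h.cov, h.edge, h.conv⟩

/-- the star case -/
theorem star_case (hr : ∀ u v, r u v → r v u) {b : ℕ}
    (hB : ∀ F : Finset V, (F : Set V) ⊆ U → ∃ m B, Bags r b (F : Set V) m B)
    (hNS : ¬ NS r U) : ∃ y ∈ U, SM r y := by
  classical
  unfold NS at hNS
  push Not at hNS
  obtain ⟨X, hX, hinf⟩ := hNS
  obtain ⟨S, hS⟩ : ∃ S : Set V, {C | C ∈ Comps r U X ∧ Nb r C = S}.Infinite := by
    by_contra hcon
    push Not at hcon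
    refine hinf (Set.Finite.subset (hX.finite_subsets.biUnion (t := fun S =>
      {C | C ∈ Comps r U X ∧ Nb r C = S}) (fun S _ => Set.not_infinite.1 (by
        have := hcon S
        simpa using this))) ?_)
    intro C hC
    exact Set.mem_iUnion₂.2 ⟨Nb r C, hC.2.2.2.2.2, hC, rfl⟩
  have e := hS.natEmbedding
  set C : ℕ → Set V := fun n => (e n).1 with hCdef
  have hC : ∀ n, C n ∈ Comps r U X := fun n => (e n).2.1
  have hN : ∀ n, Nb r (C n) = S := fun n => (e n).2.2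
  have hSfin : S.Finite := by
    rw [← hN 0]
    exact hX.subset (hC 0).2.2.2.2.2
  have hdis : ∀ i j, i ≠ j → Disjoint (C i) (C j) := by
    intro i j hij
    refine comps_disjoint (hC i) (hC j) (fun h => hij ?_)
    exact e.injective (Subtype.ext h)
  set s := hSfin.toFinset.card with hs
  set x : Fin s → V := fun i => (hSfin.toFinset.equivFin.symm i).1 with hx
  have hxinj : Function.Injective x := fun i j h =>
    hSfin.toFinset.equivFin.symm.injective (Subtype.ext h)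
  have hrange : Set.range x = S := by
    ext v
    constructor
    · rintro ⟨i, rfl⟩
      exact hSfin.mem_toFinset.1 (hSfin.toFinset.equivFin.symm i).2
    · intro hv
      refine ⟨hSfin.toFinset.equivFin ⟨v, hSfin.mem_toFinset.2 hv⟩, ?_⟩
      simp [hx]
  have hout : ∀ n a, x a ∉ C n := by
    intro n a
    have h1 : x a ∈ Nb r (C n) := by
      rw [hN n, ← hrange]
      exact ⟨a, rfl⟩
    exact h1.1
  set P : ℕ → Strip.{u} s 0 := fun n => ⟨V, r, hr, C n, (hC n).2.1, Fin.elim0, Fin.elim0,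
    fun v k => r v (x k)⟩ with hP
  have hmem : ∀ n, P n ∈ CC b s 0 := by
    intro n
    obtain ⟨m, B, h⟩ := hB (hC n).2.1.toFinset (by
      rw [Set.Finite.coe_toFinset]
      exact (hC n).1)
    rw [Set.Finite.coe_toFinset] at h
    refine ⟨⟨Fin.elim0, ⟨fun a => a.elim0, fun a => a.elim0, fun a => a.elim0,
      fun a => a.elim0, fun a => a.elim0⟩⟩, m, B, h, ?_, ?_⟩
    · rintro _ ⟨a, _⟩
      exact a.elim0
    · rintro _ ⟨a, _⟩
      exact a.elim0
  obtain ⟨g, hg⟩ := (cc_pwo b s (b + 1) 0 (Nat.zero_add _)).exists_monotone_subseq hmem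
  have hle : ∀ j, Le (⟨V, r, hr, C (g j), (hC _).2.1, x, hxinj, hout _⟩ : Piece.{u} s)
      ⟨V, r, hr, C (g (j + 1)), (hC _).2.1, x, hxinj, hout _⟩ := by
    intro j
    obtain ⟨θ, h, -, -⟩ := hg j (j + 1) (Nat.le_succ j)
    change Mc r (C (g j)) (fun v k => r v (x k)) r (C (g (j + 1))) (fun v k => r v (x k)) θ at h
    set η : V → Set V := fun v => if v ∈ C (g j) then θ v else {v} with hη
    have t1 : ∀ v ∈ C (g j), η v = θ v := fun v hv => if_pos hv
    have t2 : ∀ a, η (x a) = {x a} := fun a => if_neg (hout _ a)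
    refine ⟨η, fun v hv => ?_, fun a => ?_, ?_, ?_⟩
    · rw [t1 v hv]
      exact ⟨h.ne v hv, h.con v hv, h.sub v hv⟩
    · change x a ∈ η (x a) ∧ Con r (η (x a)) ∧ η (x a) ⊆ insert (x a) (C (g (j + 1)))
      rw [t2]
      exact ⟨rfl, con_singleton _ _, Set.singleton_subset_iff.2 (Or.inl rfl)⟩
    · rintro u (hu | ⟨a, rfl⟩) v (hv | ⟨c, rfl⟩) huv
      · rw [t1 u hu, t1 v hv]
        exact h.disj u hu v hv huv
      · change Disjoint (η u) (η (x c))
        rw [t1 u hu, t2, Set.disjoint_singleton_right]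
        exact fun h' => hout _ c (h.sub u hu h')
      · change Disjoint (η (x a)) (η v)
        rw [t1 v hv, t2, Set.disjoint_singleton_left]
        exact fun h' => hout _ a (h.sub v hv h')
      · change Disjoint (η (x a)) (η (x c))
        rw [t2, t2, Set.disjoint_singleton]
        exact huv
    · rintro u hu v (hv | ⟨c, rfl⟩) huv hne
      · rw [t1 u hu, t1 v hv]
        exact h.adj u hu v hv huv hne
      · change ∃ a ∈ η u, ∃ d ∈ η (x c), r a d
        rw [t1 u hu, t2]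
        obtain ⟨w, hw, hwc⟩ := h.lb u hu c huv
        exact ⟨w, hw, x c, rfl, hwc⟩
  obtain ⟨y, hy, hsm⟩ := shift hr x hxinj (fun j => C (g j)) (fun j => (hC _).2.2.1)
    (fun j => (hC _).2.1) (fun i j hij => hdis _ _ (fun h => hij (g.injective h)))
    (fun j => hout _) (fun j u hu v huv => by
      by_cases hv : v ∈ C (g j)
      · exact Or.inl hv
      · right
        rw [hrange, ← hN (g j)]
        exact ⟨hv, u, hu, huv⟩) hle
  exact ⟨y, (hC _).1 hy, hsm⟩

lemma inter_lay (F F' : Set V) : F ∩ Lay r D F F' = bd r D F := by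
  ext v
  constructor
  · rintro ⟨h, h' | h'⟩
    · exact h'
    · exact absurd h h'.2
  · intro h
    exact ⟨bd_sub h, Or.inl h⟩

lemma union_lay {F F' : Set V} (h : F ⊆ F') : F ∪ Lay r D F F' = F' := by
  ext v
  constructor
  · rintro (h' | h' | h')
    · exact h h'
    · exact h (bd_sub h')
    · exact h'.1
  · intro h'
    by_cases hv : v ∈ F
    · exact Or.inl hv
    · exact Or.inr (Or.inr ⟨h', hv⟩)

lemma lay_edge (hr : ∀ u v, r u v → r v u) {F F' : Set V} (hF'D : F' ⊆ D) (h : F ⊆ F') :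
    ∀ u ∈ F ∪ Lay r D F F', ∀ v ∈ F ∪ Lay r D F F', r u v →
      (u ∈ F ∧ v ∈ F) ∨ (u ∈ Lay r D F F' ∧ v ∈ Lay r D F F') := by
  intro u hu v hv huv
  rw [union_lay h] at hu hv
  by_cases huF : u ∈ F
  · by_cases hvF : v ∈ F
    · exact Or.inl ⟨huF, hvF⟩
    · exact Or.inr ⟨Or.inl ⟨hF'D hu, huF, v, hF'D hv, hvF, huv⟩, Or.inr ⟨hv, hvF⟩⟩
  · by_cases hvF : v ∈ F
    · exact Or.inr ⟨Or.inr ⟨hu, huF⟩, Or.inl ⟨hF'D hv, hvF, u, hF'D hu, huF, hr _ _ huv⟩⟩
    · exact Or.inr ⟨Or.inr ⟨hu, huF⟩, Or.inr ⟨hv, hvF⟩⟩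

section chain

variable {s : ℕ} {F : ℕ → Set V} {t : ℕ → Fin s → V} {S : ℕ → Fin s → Set V}

lemma Chain.mono_le (h : Chain r D s F t S) {i j : ℕ} (hij : i ≤ j) : F i ⊆ F j :=
  monotone_nat_of_le_succ h.mono hij

lemma Chain.lay_fin (h : Chain r D s F t S) (i j : ℕ) : (Lay r D (F i) (F j)).Finite :=
  ((h.fin i).subset bd_sub).union ((h.fin j).subset Set.sdiff_subset)

lemma Chain.long (hr : ∀ u v, r u v → r v u) (h : Chain r D s F t S) (k : ℕ) : ∀ d,
    ∃ E, Str r (Lay r D (F k) (F (k + d))) (t k) (t (k + d)) E := by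
  intro d
  induction d with
  | zero =>
    refine ⟨fun a => {t k a}, ⟨fun a => con_singleton _ _, fun a => ?_, fun a => rfl,
      fun a => rfl, fun a c hac => ?_⟩⟩
    · rw [Set.singleton_subset_iff]
      refine Or.inl ?_
      rw [← h.range k]
      exact ⟨a, rfl⟩
    · rw [Set.disjoint_singleton]
      exact fun h' => hac (h.inj k h')
  | succ d ih =>
    obtain ⟨E, hE⟩ := ih
    have hsub : Lay r D (F k) (F (k + d)) ⊆ Lay r D (F k) (F (k + d + 1)) := by
      rintro w (hw | hw)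
      · exact Or.inl hw
      · exact Or.inr ⟨h.mono _ hw.1, hw.2⟩
    have hLF : Lay r D (F k) (F (k + d)) ⊆ F (k + d) := by
      rintro w (hw | hw)
      · exact h.mono_le (Nat.le_add_right k d) (bd_sub hw)
      · exact hw.1
    refine ⟨fun a => E a ∪ S (k + d) a, ⟨fun a => ?_, fun a => ?_, fun a => Or.inl (hE.left a),
      fun a => Or.inr (h.right _ a), fun a c hac => ?_⟩⟩
    · exact con_union hr (hE.con a) (h.con _ a) (hE.right a) (h.left _ a) (Or.inl rfl)
    · rintro w (hw | hw)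
      · exact hsub (hE.sub a hw)
      · rcases h.lay _ a hw with h' | h'
        · rw [← h.range] at h'
          obtain ⟨c, rfl⟩ := h'
          exact hsub (hE.sub c (hE.right c))
        · exact Or.inr ⟨h'.1, fun h'' => h'.2 (h.mono_le (Nat.le_add_right k d) h'')⟩
    · have key : ∀ a c, a ≠ c → Disjoint (E a) (S (k + d) c) := by
        intro a c hac
        rw [Set.disjoint_left]
        intro w hw hw'
        have h1 : w ∈ F (k + d) ∩ Lay r D (F (k + d)) (F (k + d + 1)) :=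
          ⟨hLF (hE.sub a hw), h.lay _ c hw'⟩
        rw [inter_lay, ← h.range] at h1
        obtain ⟨e, rfl⟩ := h1
        have e1 := hE.eq_of_mem (hE.right e) hw
        have e2 : e = c := by
          by_contra hne
          exact Set.disjoint_left.1 (h.disj _ e c hne) (h.left _ e) hw'
        exact hac (e1.symm.trans e2)
      rw [Set.disjoint_union_left, Set.disjoint_union_right, Set.disjoint_union_right]
      exact ⟨⟨hE.disj a c hac, key a c hac⟩, (key c a (Ne.symm hac)).symm, h.disj _ a c hac⟩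

/-- moving a layer into a later one, with the strands before it -/
lemma Chain.move (hr : ∀ u v, r u v → r v u) (h : Chain r D s F t S) {q : ℕ}
    {lab : V → Fin q → Prop} {i k d : ℕ} {θ : V → Set V}
    (hθ : Mc r (Lay r D (F i) (F (i + 1))) lab r (Lay r D (F (k + d)) (F (k + d + 1))) lab θ)
    (hl : ∀ a, t (k + d) a ∈ θ (t i a)) (ht : ∀ a, t (k + d + 1) a ∈ θ (t (i + 1) a)) :
    ∃ η : V → Set V, Mc r (Lay r D (F i) (F (i + 1))) lab r (Lay r D (F k) (F (k + d + 1))) lab η ∧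
      (∀ a, t k a ∈ η (t i a) ∧ t (k + d) a ∈ η (t i a)) ∧
      ∀ a, t (k + d + 1) a ∈ η (t (i + 1) a) := by
  obtain ⟨E, hE⟩ := h.long hr k d
  have hLF : Lay r D (F k) (F (k + d)) ⊆ F (k + d) := by
    rintro w (hw | hw)
    · exact h.mono_le (Nat.le_add_right k d) (bd_sub hw)
    · exact hw.1
  have hsub : Lay r D (F k) (F (k + d)) ⊆ Lay r D (F k) (F (k + d + 1)) := by
    rintro w (hw | hw)
    · exact Or.inl hw
    · exact Or.inr ⟨h.mono _ hw.1, hw.2⟩
  have hsub2 : Lay r D (F (k + d)) (F (k + d + 1)) ⊆ Lay r D (F k) (F (k + d + 1)) := by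
    rintro w (hw | hw)
    · rw [← h.range] at hw
      obtain ⟨c, rfl⟩ := hw
      exact hsub (hE.sub c (hE.right c))
    · exact Or.inr ⟨hw.1, fun h'' => hw.2 (h.mono_le (Nat.le_add_right k d) h'')⟩
  have h1 := hθ.ext hr hsub2 (t i) (t (k + d)) E hE.con hE.right hl ?_ ?_
    (fun a => (hE.sub a).trans hsub)
  · exact ⟨_, h1, fun a => ⟨Or.inr ⟨a, rfl, hE.left a⟩, Or.inl (hl a)⟩, fun a => Or.inl (ht a)⟩
  · intro a w hw hwF
    have h1 : w ∈ F (k + d) ∩ Lay r D (F (k + d)) (F (k + d + 1)) :=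
      ⟨hLF (hE.sub a hw), hwF⟩
    rw [inter_lay, ← h.range] at h1
    obtain ⟨e, rfl⟩ := h1
    rw [hE.eq_of_mem (hE.right e) hw]
  · intro a c hac w hw hw'
    exact absurd (congrArg (t i) (hE.eq_of_mem hw hw')) hac

end chain

/-- recurrence in well-quasi-orders -/
lemma exists_recur {α : Type*} {R : α → α → Prop} {A : Set α} (hA : A.PartiallyWellOrderedOn R)
    {f : ℕ → α} (hf : ∀ n, f n ∈ A) : ∃ N, ∀ i ≥ N, ∀ m, ∃ k ≥ m, R (f i) (f k) := by
  by_contra hcon
  push Not at hcon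
  choose I hI M hM using hcon
  set h : ℕ → ℕ := fun n => Nat.rec 0 (fun _ x => max x (M x)) n with hh
  have hs : ∀ n, h (n + 1) = max (h n) (M (h n)) := fun n => rfl
  have hmono : Monotone h := monotone_nat_of_le_succ fun n => by
    rw [hs]
    exact le_max_left _ _
  obtain ⟨i, j, hij, hR⟩ := hA.exists_lt (f := fun n => f (I (h n))) (fun n => hf _)
  refine hM (h i) (I (h j)) ?_ hR
  have h1 : M (h i) ≤ h (i + 1) := by
    rw [hs]
    exact le_max_right _ _
  exact h1.trans ((hmono hij).trans (hI (h j)))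

/-- the ray case -/
theorem ray_case (hr : ∀ u v, r u v → r v u) {b : ℕ}
    (hB : ∀ F : Finset V, (F : Set V) ⊆ U → ∃ m B, Bags r b (F : Set V) m B) (hDU : D ⊆ U)
    (hN : (Nb r D).Finite) {s : ℕ} {F : ℕ → Set V} {t : ℕ → Fin s → V}
    {S : ℕ → Fin s → Set V} (hs : 0 < s) (h : Chain r D s F t S) :
    ∃ B : V → Set V, (∀ v, (B v).Nonempty ∧ Con r (B v)) ∧
      (∀ u v, u ≠ v → Disjoint (B u) (B v)) ∧
      (∀ u v, r u v → u ≠ v → ∃ a ∈ B u, ∃ b ∈ B v, r a b) ∧
      ∃ v, ∃ a ∈ B v, ∃ b ∈ B v, a ∈ U ∧ b ∈ U ∧ a ≠ b ∧ r a b := by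
  classical
  -- labels
  set q := hN.toFinset.card with hq
  set y : Fin q → V := fun i => (hN.toFinset.equivFin.symm i).1 with hy
  have hyr : ∀ v ∈ Nb r D, ∃ k, y k = v := by
    intro v hv
    refine ⟨hN.toFinset.equivFin ⟨v, hN.mem_toFinset.2 hv⟩, ?_⟩
    simp [hy]
  have hyD : ∀ k, y k ∉ D := fun k =>
    (hN.mem_toFinset.1 (hN.toFinset.equivFin.symm k).2).1
  set lab : V → Fin q → Prop := fun v k => r v (y k) with hlab
  set P : ℕ → Strip.{u} q s := fun i => ⟨V, r, hr, Lay r D (F i) (F (i + 1)), h.lay_fin i (i + 1),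
    t i, t (i + 1), lab⟩ with hP
  have hmem : ∀ i, P i ∈ CC (b + (s + s)) q s := by
    intro i
    have hLD : Lay r D (F i) (F (i + 1)) ⊆ D := by
      rintro w (hw | hw)
      · exact hw.1
      · exact h.sub _ hw.1
    obtain ⟨m, B, hb⟩ := hB (h.lay_fin i (i + 1)).toFinset (by
      rw [Set.Finite.coe_toFinset]
      exact hLD.trans hDU)
    rw [Set.Finite.coe_toFinset] at hb
    have hX : Set.range (t i) ∪ Set.range (t (i + 1)) ⊆ Lay r D (F i) (F (i + 1)) := by
      rintro w (⟨a, rfl⟩ | ⟨a, rfl⟩)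
      · exact h.lay i a (h.left i a)
      · exact h.lay i a (h.right i a)
    have hXc : (Set.range (t i) ∪ Set.range (t (i + 1))).ncard ≤ s + s := by
      refine (Set.ncard_union_le _ _).trans ?_
      rw [← Set.image_univ, ← Set.image_univ, Set.ncard_image_of_injective _ (h.inj _),
        Set.ncard_image_of_injective _ (h.inj _), Set.ncard_univ, Nat.card_eq_fintype_card,
        Fintype.card_fin]
    refine ⟨⟨S i, h.con i, h.lay i, h.left i, h.right i, h.disj i⟩, m, _,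
      (hb.add hX).mono (Nat.add_le_add_left hXc b), ?_, ?_⟩
    · exact fun w hw => Or.inr (Or.inl hw)
    · exact fun w hw => Or.inr (Or.inr hw)
  obtain ⟨N, hrec⟩ := exists_recur (cc_pwo.{u} (b + (s + s)) q (b + s + 1) s (by omega)) hmem
  -- one step
  have hstep : ∀ i k, ∃ d, 0 < d ∧ ∃ η : V → Set V,
      Mc r (Lay r D (F (N + i)) (F (N + i + 1))) lab r (Lay r D (F k) (F (k + d + 1))) lab η ∧
      (∀ a, t k a ∈ η (t (N + i) a) ∧ t (k + d) a ∈ η (t (N + i) a)) ∧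
      ∀ a, t (k + d + 1) a ∈ η (t (N + i + 1) a) := by
    intro i k
    obtain ⟨j, hj, θ, h1, h2, h3⟩ := hrec (N + i) (Nat.le_add_right N i) (k + 1)
    obtain ⟨d, rfl⟩ := Nat.exists_eq_add_of_le (Nat.le_of_succ_le hj)
    have hd : 0 < d := by omega
    exact ⟨d, hd, h.move hr h1 h2 h3⟩
  choose dd hdd η hη1 hη2 hη3 using hstep
  -- the positions
  set K : ℕ → ℕ := fun n => Nat.rec N (fun i k => k + dd i k + 1) n with hK
  have hKs : ∀ n, K (n + 1) = K n + dd n (K n) + 1 := fun n => rfl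
  -- the approximations
  set Θ : ℕ → V → Set V := fun n => Nat.rec (fun v => {v}) (fun n T v =>
    {w | (v ∈ F (N + n) ∧ w ∈ T v) ∨
      (v ∈ Lay r D (F (N + n)) (F (N + n + 1)) ∧ w ∈ η n (K n) v)}) n with hΘ
  have hΘs : ∀ n v, Θ (n + 1) v = {w | (v ∈ F (N + n) ∧ w ∈ Θ n v) ∨
      (v ∈ Lay r D (F (N + n)) (F (N + n + 1)) ∧ w ∈ η n (K n) v)} := fun n v => rfl
  have hMc : ∀ n, Mc r (F (N + n)) lab r (F (K n)) lab (Θ n) ∧
      ∀ a, t (K n) a ∈ Θ n (t (N + n) a) := by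
    intro n
    induction n with
    | zero => exact ⟨Mc.refl _ _ _, fun a => rfl⟩
    | succ n ih =>
      obtain ⟨ih1, ih2⟩ := ih
      have hsubK : F (K n) ⊆ F (K n + dd n (K n) + 1) := h.mono_le (by omega)
      have h1 := ih1.glue hr (hη1 n (K n)) (x := t (N + n)) (y := t (K n))
        (by rw [inter_lay, h.range]) (by rw [inter_lay, h.range])
        (lay_edge hr (h.sub _) (h.mono _)) ih2 (fun a => (hη2 n (K n) a).1)
      rw [union_lay (h.mono _), union_lay hsubK] at h1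
      refine ⟨h1, fun a => ?_⟩
      exact Or.inr ⟨h.lay _ a (h.right _ a), hη3 n (K n) a⟩
  have hΘm : ∀ n m, n ≤ m → ∀ v ∈ F (N + n), Θ n v ⊆ Θ m v := by
    intro n m hnm
    induction m, hnm using Nat.le_induction with
    | base => exact fun v _ => subset_rfl
    | succ m hnm ih =>
      intro v hv w hw
      exact Or.inl ⟨h.mono_le (Nat.add_le_add_left hnm N) hv, ih v hv hw⟩
  have hcov : ∀ v ∈ D, ∃ n, v ∈ F (N + n) := by
    intro v hv
    obtain ⟨i, hi⟩ := h.cov v hv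
    exact ⟨i, h.mono_le (Nat.le_add_left i N) hi⟩
  set M : V → Set V := fun v => {w | (v ∉ D ∧ w = v) ∨ ∃ n, v ∈ F (N + n) ∧ w ∈ Θ n v} with hM
  have hFD : ∀ n, ∀ v ∈ F n, v ∈ D := fun n v hv => h.sub n hv
  have m1 : ∀ v, v ∉ D → M v = {v} := by
    intro v hv
    ext w
    constructor
    · rintro (⟨_, h'⟩ | ⟨n, h', _⟩)
      · exact h'
      · exact absurd (hFD _ _ h') hv
    · exact fun h' => Or.inl ⟨hv, h'⟩
  have m2 : ∀ v, v ∈ D → ∀ w ∈ M v, ∃ n, v ∈ F (N + n) ∧ w ∈ Θ n v := by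
    rintro v hv w (⟨h', _⟩ | h')
    · exact absurd hv h'
    · exact h'
  have m3 : ∀ v ∈ D, M v ⊆ D := by
    intro v hv w hw
    obtain ⟨n, h1, h2⟩ := m2 v hv w hw
    exact hFD _ _ ((hMc n).1.sub v h1 h2)
  refine ⟨M, fun v => ?_, fun u v huv => ?_, fun u v huv hne => ?_, ?_⟩
  · by_cases hv : v ∈ D
    · obtain ⟨n, hn⟩ := hcov v hv
      obtain ⟨w, hw⟩ := (hMc n).1.ne v hn
      refine ⟨⟨w, Or.inr ⟨n, hn, hw⟩⟩, fun a ha c hc => ?_⟩
      obtain ⟨n1, h1, h1'⟩ := m2 v hv a ha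
      obtain ⟨n2, h2, h2'⟩ := m2 v hv c hc
      have e1 := hΘm n1 (max n1 n2) (le_max_left _ _) v h1 h1'
      have e2 := hΘm n2 (max n1 n2) (le_max_right _ _) v h2 h2'
      have hv' : v ∈ F (N + max n1 n2) :=
        h.mono_le (Nat.add_le_add_left (le_max_left _ _) N) h1
      refine rtg_mono (fun x z hxz => ?_) ((hMc (max n1 n2)).1.con v hv' a e1 c e2)
      exact ⟨hxz.1, Or.inr ⟨_, hv', hxz.2.1⟩, Or.inr ⟨_, hv', hxz.2.2⟩⟩
    · rw [m1 v hv]
      exact ⟨Set.singleton_nonempty v, con_singleton _ _⟩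
  · rw [Set.disjoint_left]
    intro w hw hw'
    by_cases hu : u ∈ D
    · by_cases hv : v ∈ D
      · obtain ⟨n1, h1, h1'⟩ := m2 u hu w hw
        obtain ⟨n2, h2, h2'⟩ := m2 v hv w hw'
        have e1 := hΘm n1 (max n1 n2) (le_max_left _ _) u h1 h1'
        have e2 := hΘm n2 (max n1 n2) (le_max_right _ _) v h2 h2'
        have hu' : u ∈ F (N + max n1 n2) :=
          h.mono_le (Nat.add_le_add_left (le_max_left _ _) N) h1
        have hv' : v ∈ F (N + max n1 n2) :=
          h.mono_le (Nat.add_le_add_left (le_max_right _ _) N) h2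
        exact Set.disjoint_left.1 ((hMc (max n1 n2)).1.disj u hu' v hv' huv) e1 e2
      · have h1 := m3 u hu hw
        rw [m1 v hv] at hw'
        exact hv (Set.mem_singleton_iff.1 hw' ▸ h1)
    · rw [m1 u hu] at hw
      by_cases hv : v ∈ D
      · have h1 := m3 v hv hw'
        exact hu (Set.mem_singleton_iff.1 hw ▸ h1)
      · rw [m1 v hv] at hw'
        exact huv ((Set.mem_singleton_iff.1 hw).symm.trans (Set.mem_singleton_iff.1 hw'))
  · have hone : ∀ u ∈ D, ∀ v, v ∉ D → r u v → ∃ a ∈ M u, ∃ c ∈ M v, r a c := by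
      intro u hu v hv huv
      obtain ⟨k, hk⟩ := hyr v ⟨hv, u, hu, huv⟩
      obtain ⟨n, hn⟩ := hcov u hu
      obtain ⟨w, hw, hwk⟩ := (hMc n).1.lb u hn k (by
        change r u (y k)
        rw [hk]
        exact huv)
      refine ⟨w, Or.inr ⟨n, hn, hw⟩, v, ?_, ?_⟩
      · rw [m1 v hv]
        rfl
      · have : r w (y k) := hwk
        rwa [hk] at this
    by_cases hu : u ∈ D
    · by_cases hv : v ∈ D
      · obtain ⟨n1, h1⟩ := hcov u hu
        obtain ⟨n2, h2⟩ := hcov v hv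
        have hu' : u ∈ F (N + max n1 n2) :=
          h.mono_le (Nat.add_le_add_left (le_max_left _ _) N) h1
        have hv' : v ∈ F (N + max n1 n2) :=
          h.mono_le (Nat.add_le_add_left (le_max_right _ _) N) h2
        obtain ⟨a, ha, c, hc, hac⟩ := (hMc (max n1 n2)).1.adj u hu' v hv' huv hne
        exact ⟨a, Or.inr ⟨_, hu', ha⟩, c, Or.inr ⟨_, hv', hc⟩, hac⟩
      · exact hone u hu v hv huv
    · by_cases hv : v ∈ D
      · obtain ⟨a, ha, c, hc, hac⟩ := hone v hv u hu (hr _ _ huv)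
        exact ⟨c, hc, a, ha, hr _ _ hac⟩
      · refine ⟨u, ?_, v, ?_, huv⟩
        · rw [m1 u hu]; rfl
        · rw [m1 v hv]; rfl
  · -- properness
    set a0 : Fin s := ⟨0, hs⟩ with ha0
    have ht0 : t N a0 ∈ bd r D (F N) := by
      rw [← h.range]
      exact ⟨a0, rfl⟩
    have hD0 : t N a0 ∈ D := ht0.1
    have hin0 : t N a0 ∈ M (t N a0) := Or.inr ⟨0, ht0.2.1, rfl⟩
    have hF1 : t N a0 ∈ F (N + 1) := h.mono _ ht0.2.1
    have hin1 : t (N + dd 0 N) a0 ∈ M (t N a0) := by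
      refine Or.inr ⟨1, hF1, ?_⟩
      exact Or.inr ⟨h.lay _ a0 (h.left _ a0), (hη2 0 N a0).2⟩
    have hnot : t (N + dd 0 N) a0 ∉ ({t N a0} : Set V) := by
      intro h'
      have h1 : t (N + dd 0 N) a0 = t N a0 := h'
      have h2 := hdd 0 N
      have h3 : t (N + dd 0 N) a0 ∈ bd r D (F (N + dd 0 N)) := by
        rw [← h.range]
        exact ⟨a0, rfl⟩
      obtain ⟨_, _, z, hz, hzF, hrz⟩ := h3
      rw [h1] at hrz
      apply hzF
      have h4 : z ∈ F (N + 1) := h.nb N _ ht0.2.1 z hz hrz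
      exact h.mono_le (by omega) h4
    have hcon : Con r (M (t N a0)) := by
      intro a ha c hc
      obtain ⟨n1, h1, h1'⟩ := m2 _ hD0 a ha
      obtain ⟨n2, h2, h2'⟩ := m2 _ hD0 c hc
      have e1 := hΘm n1 (max n1 n2) (le_max_left _ _) _ h1 h1'
      have e2 := hΘm n2 (max n1 n2) (le_max_right _ _) _ h2 h2'
      have hv' : t N a0 ∈ F (N + max n1 n2) :=
        h.mono_le (Nat.add_le_add_left (le_max_left _ _) N) h1
      refine rtg_mono (fun x z hxz => ?_) ((hMc (max n1 n2)).1.con _ hv' a e1 c e2)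
      exact ⟨hxz.1, Or.inr ⟨_, hv', hxz.2.1⟩, Or.inr ⟨_, hv', hxz.2.2⟩⟩
    obtain ⟨u, hu, huZ, v, hv, hvZ, huv⟩ := exists_cross hcon hin0
      (Set.mem_singleton (t N a0)) hin1 hnot
    rw [Set.mem_singleton_iff] at huZ
    refine ⟨t N a0, u, hu, v, hv, hDU (m3 _ hD0 hu), hDU (m3 _ hD0 hv), ?_, huv⟩
    rintro rfl
    exact hvZ huZ

/-- the main theorem -/
theorem main (hr : ∀ u v, r u v → r v u) {b : ℕ} (hU : U.Infinite) (hN : (Nb r U).Finite)
    (hB : ∀ F : Finset V, (F : Set V) ⊆ U → ∃ m B, Bags r b (F : Set V) m B) :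
    ∃ B : V → Set V, (∀ v, (B v).Nonempty ∧ Con r (B v)) ∧
      (∀ u v, u ≠ v → Disjoint (B u) (B v)) ∧
      (∀ u v, r u v → u ≠ v → ∃ a ∈ B u, ∃ b ∈ B v, r a b) ∧
      ((∃ x ∈ U, ∀ v, x ∉ B v) ∨
        ∃ v, ∃ a ∈ B v, ∃ b ∈ B v, a ∈ U ∧ b ∈ U ∧ a ≠ b ∧ r a b) := by
  by_cases hNS : NS r U
  · obtain ⟨lt, hlt, hW⟩ := exists_order hB
    obtain ⟨D, hDU, hD, hDc, hDN, hloc, hc⟩ := exists_part hr hNS hU hN hlt hW
    obtain ⟨s, F, t, S, hs, h⟩ := exists_chain hr hD hDc hloc hc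
    obtain ⟨B, b1, b2, b3, b4⟩ := ray_case hr hB hDU hDN hs h
    exact ⟨B, b1, b2, b3, Or.inr b4⟩
  · obtain ⟨y, hy, B, b1, b2, b3, b4⟩ := star_case hr hB hNS
    exact ⟨B, b1, b2, b3, Or.inl ⟨y, hy, b4⟩⟩

end SelfMinorPw
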