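import Pool.Agent.SelfMinorPk.Basic

/-!
# Path decompositions of finite sets and a global linear order
-/

namespace SelfMinorPw

open Relation SelfMinor SelfMinorPk

universe u

variable {V : Type u} {r : V → V → Prop} {C D F L U X Y Z : Set V}

/-- a path decomposition of `F` with bags `B 0, ..., B m` of size at most `b` -/
structure Bags (r : V → V → Prop) (b : ℕ) (F : Set V) (m : ℕ) (B : ℕ → Set V) : Prop where
  sub : ∀ i, B i ⊆ F
  card : ∀ i, (B i).ncard ≤ b
  cov : ∀ v ∈ F, ∃ i ≤ m, v ∈ B i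
  edge : ∀ u ∈ F, ∀ v ∈ F, r u v → ∃ i ≤ m, u ∈ B i ∧ v ∈ B i
  conv : ∀ i j k, i ≤ j → j ≤ k → k ≤ m → ∀ v, v ∈ B i → v ∈ B k → v ∈ B j

/-- every cut of the order is crossed by at most `w` lower vertices -/
def Wd (r : V → V → Prop) (lt : V → V → Prop) (D : Set V) (w : ℕ) : Prop :=
  ∀ A B : Finset V, (A : Set V) ⊆ D → (B : Set V) ⊆ D → (∀ a ∈ A, ∀ b ∈ B, lt a b) →
    (∀ a ∈ A, ∃ b ∈ B, r a b) → A.card ≤ w

lemma Wd.mono {lt : V → V → Prop} {w : ℕ} (h : Wd r lt D w) (hC : C ⊆ D) : Wd r lt C w :=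
  fun A B hA hB => h A B (hA.trans hC) (hB.trans hC)

lemma Bags.exists_g {b m : ℕ} {B : ℕ → Set V} (hF : F.Finite) (h : Bags r b F m B) :
    ∃ g : V → ℕ, ∀ A B : Finset V, (A : Set V) ⊆ F → (B : Set V) ⊆ F →
      (∀ a ∈ A, ∀ b ∈ B, g a ≤ g b) → (∀ a ∈ A, ∃ b ∈ B, r a b) → A.card ≤ b := by
  classical
  have hg : ∀ v, ∃ n, v ∈ F → (n ≤ m ∧ v ∈ B n ∧ ∀ i ≤ m, v ∈ B i → n ≤ i) := by
    intro v
    by_cases hv : v ∈ F
    · have h1 : ∃ i, i ≤ m ∧ v ∈ B i := h.cov v hv
      refine ⟨Nat.find h1, fun _ => ⟨(Nat.find_spec h1).1, (Nat.find_spec h1).2, ?_⟩⟩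
      intro i hi hvi
      exact Nat.find_min' h1 ⟨hi, hvi⟩
    · exact ⟨0, fun h => absurd h hv⟩
  choose g hg using hg
  refine ⟨g, fun A C hA hC hle hadj => ?_⟩
  rcases C.eq_empty_or_nonempty with rfl | hne
  · have : A = ∅ := by
      rw [Finset.eq_empty_iff_forall_notMem]
      intro a ha
      obtain ⟨c, hc, -⟩ := hadj a ha
      exact absurd hc (Finset.notMem_empty c)
    rw [this]
    exact Nat.zero_le _
  · obtain ⟨c0, hc0, hmin⟩ := Finset.exists_min_image C g hne
    have hsub : (A : Set V) ⊆ B (g c0) := by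
      intro a ha
      obtain ⟨c, hc, hac⟩ := hadj a ha
      obtain ⟨i, hi, hai, hci⟩ := h.edge a (hA ha) c (hC hc) hac
      have h1 := (hg a (hA ha)).2.1
      have h2 := (hg c (hC hc)).2.2 i hi hci
      exact h.conv (g a) (g c0) i (hle a ha c0 hc0) ((hmin c hc).trans h2) hi a h1 hai
    have h3 := Set.ncard_le_ncard hsub (hF.subset (h.sub _))
    rw [Set.ncard_coe_finset] at h3
    exact h3.trans (h.card _)

/-- compactness -/
theorem exists_order {b : ℕ}
    (hB : ∀ F : Finset V, (F : Set V) ⊆ U → ∃ m B, Bags r b (F : Set V) m B) :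
    ∃ lt : V → V → Prop, IsStrictTotalOrder V lt ∧ Wd r lt U b := by
  classical
  have hG : ∀ F : Finset V, ∃ g : V → ℕ, ∀ A B : Finset V,
      (A : Set V) ⊆ (F : Set V) ∩ U → (B : Set V) ⊆ (F : Set V) ∩ U →
      (∀ a ∈ A, ∀ b ∈ B, g a ≤ g b) → (∀ a ∈ A, ∃ b ∈ B, r a b) → A.card ≤ b := by
    intro F
    obtain ⟨m, B, h⟩ := hB (F.filter (· ∈ U)) (by
      intro v hv
      exact (Finset.mem_filter.1 (Finset.mem_coe.1 hv)).2)
    obtain ⟨g, hg⟩ := h.exists_g (Finset.finite_toSet _)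
    have heq : ((F.filter (· ∈ U) : Finset V) : Set V) = (F : Set V) ∩ U := by
      ext v
      simp
    rw [heq] at hg
    exact ⟨g, hg⟩
  choose g hg using hG
  set 𝓤 : Ultrafilter (Finset V) := Ultrafilter.of Filter.atTop with h𝓤
  have hmem : ∀ A : Finset V, ∀ᶠ F in (𝓤 : Filter (Finset V)), A ⊆ F := fun A =>
    Ultrafilter.of_le _ (Filter.eventually_ge_atTop A)
  set P : V → V → Finset V → Prop := fun x y F =>
    g F x < g F y ∨ (g F x = g F y ∧ WellOrderingRel x y) with hP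
  set lt : V → V → Prop := fun x y => ∀ᶠ F in (𝓤 : Filter (Finset V)), P x y F with hlt
  have htot : ∀ x y, x ≠ y → lt x y ∨ lt y x := by
    intro x y hxy
    have h1 : ∀ᶠ F in (𝓤 : Filter (Finset V)), P x y F ∨ P y x F := by
      refine Filter.Eventually.of_forall fun F => ?_
      rcases lt_trichotomy (g F x) (g F y) with h | h | h
      · exact Or.inl (Or.inl h)
      · rcases trichotomous_of WellOrderingRel x y with h2 | h2 | h2
        · exact Or.inl (Or.inr ⟨h, h2⟩)
        · exact absurd h2 hxy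
        · exact Or.inr (Or.inr ⟨h.symm, h2⟩)
      · exact Or.inr (Or.inl h)
    exact Ultrafilter.eventually_or.1 h1
  have htrans : ∀ x y z, lt x y → lt y z → lt x z := by
    intro x y z h1 h2
    filter_upwards [h1, h2] with F h1 h2
    rcases h1 with h1 | ⟨h1, h1'⟩
    · rcases h2 with h2 | ⟨h2, h2'⟩
      · exact Or.inl (h1.trans h2)
      · exact Or.inl (h2 ▸ h1)
    · rcases h2 with h2 | ⟨h2, h2'⟩
      · exact Or.inl (h1 ▸ h2)
      · exact Or.inr ⟨h1.trans h2, trans_of WellOrderingRel h1' h2'⟩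
  have hirr : ∀ x, ¬ lt x x := by
    intro x h
    obtain ⟨F, hF⟩ := h.exists
    rcases hF with hF | ⟨-, hF⟩
    · exact lt_irrefl _ hF
    · exact irrefl_of WellOrderingRel x hF
  refine ⟨lt, ?_, ?_⟩
  · exact { trichotomous := fun x y h1 h2 => by
              by_contra hne
              rcases htot x y hne with h | h
              · exact h1 h
              · exact h2 h
            irrefl := hirr
            trans := htrans }
  · intro A B hA hB hlt' hadj
    have h1 : ∀ᶠ F in (𝓤 : Filter (Finset V)), ∀ a ∈ A, ∀ b ∈ B, P a b F := by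
      rw [Filter.eventually_all_finset]
      intro a ha
      rw [Filter.eventually_all_finset]
      intro b hb
      exact hlt' a ha b hb
    obtain ⟨F, h1, h2, h3⟩ := (h1.and ((hmem A).and (hmem B))).exists
    refine hg F A B (fun a ha => ⟨h2 ha, hA ha⟩) (fun b hb => ⟨h3 hb, hB hb⟩) ?_ hadj
    intro a ha b hb
    rcases h1 a ha b hb with h | ⟨h, -⟩
    · exact h.le
    · exact h.le

end SelfMinorPw
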