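import Pool.Agent.SelfMinorPw.Structure

/-!
# A linked sequence of separators in a locally finite connected part
-/

namespace SelfMinorPw

open Relation SelfMinor SelfMinorPk

universe u

variable {V : Type u} {r : V → V → Prop} {C D F H I K L U X Y Z : Set V}

/-- the layer between two finite sets -/
def Lay (r : V → V → Prop) (D F F' : Set V) : Set V := bd r D F ∪ (F' \ F)

/-- finite sets are surrounded by small separators -/
def Sp (r : V → V → Prop) (D : Set V) (c : ℕ) : Prop :=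
  ∀ F : Set V, F ⊆ D → F.Finite → ∃ F' ⊆ D, F'.Finite ∧ F ⊆ F' ∧ (bd r D F').ncard ≤ c

lemma bd_sub : bd r D F ⊆ F := fun _ h => h.2.1

/-- the minimal separator size -/
lemma exists_min (hD : D.Infinite) (hDc : Con r D) (hS : ∃ c, Sp r D c) :
    ∃ s, 0 < s ∧ Sp r D s ∧ ∃ F0 ⊆ D, F0.Finite ∧ ∀ F : Set V, F ⊆ D → F.Finite → F0 ⊆ F →
      s ≤ (bd r D F).ncard := by
  classical
  have h0 : ¬ Sp r D 0 := by
    intro h
    obtain ⟨a, ha⟩ := hD.nonempty
    obtain ⟨F', hF'D, hF'f, haF', hc⟩ := h {a} (Set.singleton_subset_iff.2 ha)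
      (Set.finite_singleton a)
    obtain ⟨b, hb, hbF⟩ := (hD.sdiff hF'f).nonempty
    obtain ⟨u, hu, huF, v, hv, hvF, huv⟩ := exists_cross (Z := F') hDc ha (haF' rfl) hb hbF
    have hfin : (bd r D F').Finite := hF'f.subset bd_sub
    have h1 : bd r D F' = ∅ := by
      rw [← Set.ncard_eq_zero hfin]
      omega
    have h2 : u ∈ bd r D F' := ⟨hu, huF, v, hv, hvF, huv⟩
    rw [h1] at h2
    exact h2
  obtain ⟨s, hs, hmin'⟩ : ∃ s, Sp r D s ∧ ∀ s' < s, ¬ Sp r D s' :=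
    ⟨Nat.find hS, Nat.find_spec hS, fun s' h => Nat.find_min hS h⟩
  have hpos : 0 < s := by
    rcases Nat.eq_zero_or_pos s with h | h
    · rw [h] at hs
      exact absurd hs h0
    · exact h
  have hmin : ¬ Sp r D (s - 1) := hmin' _ (by omega)
  unfold Sp at hmin
  push Not at hmin
  obtain ⟨F0, hF0D, hF0, hF⟩ := hmin
  refine ⟨s, hpos, hs, F0, hF0D, hF0, fun F h1 h2 h3 => ?_⟩
  have := hF F h1 h2 h3
  omega

/-- the linking -/
lemma link_step (hr : ∀ u v, r u v → r v u) {s : ℕ} {F0 F F' : Set V}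
    (hmin : ∀ F : Set V, F ⊆ D → F.Finite → F0 ⊆ F → s ≤ (bd r D F).ncard)
    (h0 : F0 ⊆ F) (hFD : F ⊆ D) (hF'D : F' ⊆ D) (hF' : F'.Finite) (hFF' : F ⊆ F')
    (hN : ∀ v ∈ F, ∀ u ∈ D, r v u → u ∈ F')
    (hc' : (bd r D F').ncard = s) {t : Fin s → V} (ht : Function.Injective t)
    (htr : Set.range t = bd r D F) :
    ∃ t' : Fin s → V, Function.Injective t' ∧ Set.range t' = bd r D F' ∧
      ∃ C : Fin s → Set V, (∀ a, Con r (C a) ∧ C a ⊆ Lay r D F F' ∧ t a ∈ C a ∧ t' a ∈ C a) ∧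
        ∀ a b, a ≠ b → Disjoint (C a) (C b) := by
  classical
  have hF : F.Finite := hF'.subset hFF'
  have hTf : (bd r D F).Finite := hF.subset bd_sub
  have hTf' : (bd r D F').Finite := hF'.subset bd_sub
  have hdis : ∀ v ∈ bd r D F', v ∉ F := by
    rintro v ⟨_, _, y, hy, hyF, hvy⟩ hvF
    exact hyF (hN v hvF y hy hvy)
  have hTR' : bd r D F' ⊆ Lay r D F F' := fun v hv => Or.inr ⟨bd_sub hv, hdis v hv⟩
  set q : V → V → Prop := fun u v => r u v ∧ u ∈ Lay r D F F' ∧ v ∈ Lay r D F F' with hq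
  have hqs : ∀ u v, q u v → q v u := fun u v h => ⟨hr _ _ h.1, h.2.2, h.2.1⟩
  have hcard : hTf.toFinset.card = s := by
    rw [← Set.ncard_eq_toFinset_card _ hTf, ← htr, ← Set.image_univ,
      Set.ncard_image_of_injective _ ht, Set.ncard_univ, Nat.card_eq_fintype_card,
      Fintype.card_fin]
  have hlink : Linked q (hTf'.toFinset : Set V) (hTf.toFinset : Set V) hTf.toFinset.card := by
    refine menger hqs hTf'.toFinset hTf.toFinset _ (fun X hX' => ?_)
    rw [hcard]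
    have hX := hX'.symm hqs
    by_contra hlt
    push Not at hlt
    set A : Set V := {v | v ∈ Lay r D F F' ∧ ∃ a ∈ bd r D F, a ∉ (X : Set V) ∧
      Reach q X a v} with hA
    have hAX : ∀ v ∈ A, v ∉ X := by
      rintro v ⟨_, a, _, haX, hav⟩
      exact hav.notMem haX
    have hLD : Lay r D F F' ⊆ F' := by
      rintro v (hv | hv)
      · exact hFF' (bd_sub hv)
      · exact hv.1
    have hA1 : ∀ v ∈ A, ∀ u, r v u → u ∈ Lay r D F F' → u ∉ X → u ∈ A := by
      rintro v hv u hvu hu huX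
      have hvX := hAX v hv
      obtain ⟨hv, a, ha, haX, hav⟩ := hv
      exact ⟨hu, a, ha, haX, ReflTransGen.tail hav ⟨⟨hvu, hv, hu⟩, hvX, huX⟩⟩
    have hsub : bd r D (F ∪ A ∪ (X ∩ F')) ⊆ X := by
      rintro v ⟨hvD, hv, y, hyD, hy, hvy⟩
      by_contra hvX
      have hyX : y ∈ F' → y ∉ X := fun h1 h2 => hy (Or.inr ⟨h2, h1⟩)
      have hyF : y ∉ F := fun h => hy (Or.inl (Or.inl h))
      have hyA : y ∉ A := fun h => hy (Or.inl (Or.inr h))
      rcases hv with (hv | hv) | hv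
      · have h1 : y ∈ F' := hN v hv y hyD hvy
        have h2 : v ∈ bd r D F := ⟨hvD, hv, y, hyD, hyF, hvy⟩
        exact hyA (hA1 v ⟨Or.inl h2, v, h2, hvX, .refl⟩ y hvy (Or.inr ⟨h1, hyF⟩) (hyX h1))
      · by_cases hyF' : y ∈ F'
        · exact hyA (hA1 v hv y hvy (Or.inr ⟨hyF', hyF⟩) (hyX hyF'))
        · have h2 : v ∈ bd r D F' := ⟨hvD, hLD hv.1, y, hyD, hyF', hvy⟩
          obtain ⟨_, a, ha, haX, hav⟩ := hv
          exact hX a ((Set.Finite.mem_toFinset hTf).2 ha) haX v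
            ((Set.Finite.mem_toFinset hTf').2 h2) hav
      · exact hvX hv.1
    have h1 := hmin (F ∪ A ∪ (X ∩ F')) ?_ ?_ ?_
    · have h2 := Set.ncard_le_ncard hsub (Finset.finite_toSet X)
      rw [Set.ncard_coe_finset] at h2
      omega
    · exact Set.union_subset (Set.union_subset hFD (fun v hv => hF'D (hLD hv.1)))
        (fun v hv => hF'D hv.2)
    · exact (hF.union (hF'.subset fun v hv => hLD hv.1)).union
        (hF'.subset Set.inter_subset_right)
    · exact fun x hx => Or.inl (Or.inl (h0 hx))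
  obtain ⟨c, hc, hcd⟩ := hlink.index
  have htm : ∀ a, t a ∈ hTf.toFinset := fun a => by
    rw [Set.Finite.mem_toFinset, ← htr]
    exact ⟨a, rfl⟩
  have h1 : ∀ a, ∃ v, v ∈ c (t a) ∧ v ∈ bd r D F' := by
    intro a
    obtain ⟨v, hv, hv'⟩ := (hc (t a) (htm a)).2.2
    exact ⟨v, hv, (Set.Finite.mem_toFinset hTf').1 hv'⟩
  choose t' ht' ht'' using h1
  have hinj : Function.Injective t' := by
    intro a b hab
    by_contra hne
    have := hcd (t a) (htm a) (t b) (htm b) (fun h => hne (ht h))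
    exact Set.disjoint_left.1 this (ht' a) (hab ▸ ht' b)
  refine ⟨t', hinj, ?_, fun a => c (t a), fun a => ⟨?_, ?_, ?_, ht' a⟩, fun a b hab => ?_⟩
  · refine Set.eq_of_subset_of_ncard_le ?_ ?_ hTf'
    · rintro _ ⟨a, rfl⟩
      exact ht'' a
    · rw [hc', ← Set.image_univ, Set.ncard_image_of_injective _ hinj, Set.ncard_univ,
        Nat.card_eq_fintype_card, Fintype.card_fin]
  · exact (hc (t a) (htm a)).1.mono fun u v h => h.1
  · intro v hv
    have hta : t a ∈ Lay r D F F' := Or.inl ((Set.Finite.mem_toFinset hTf).1 (htm a))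
    exact rtg_closed (Z := Lay r D F F') (fun _ _ _ h => h.1.2.2) hta
      ((hc (t a) (htm a)).1 (t a) (hc (t a) (htm a)).2.1 v hv)
  · exact (hc (t a) (htm a)).2.1
  · exact hcd (t a) (htm a) (t b) (htm b) (fun h => hab (ht h))

/-- the data of a linked sequence -/
structure Chain (r : V → V → Prop) (D : Set V) (s : ℕ) (F : ℕ → Set V) (t : ℕ → Fin s → V)
    (S : ℕ → Fin s → Set V) : Prop where
  sub : ∀ i, F i ⊆ D
  fin : ∀ i, (F i).Finite
  mono : ∀ i, F i ⊆ F (i + 1)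
  cov : ∀ v ∈ D, ∃ i, v ∈ F i
  nb : ∀ i, ∀ v ∈ F i, ∀ u ∈ D, r v u → u ∈ F (i + 1)
  inj : ∀ i, Function.Injective (t i)
  range : ∀ i, Set.range (t i) = bd r D (F i)
  con : ∀ i a, Con r (S i a)
  lay : ∀ i a, S i a ⊆ Lay r D (F i) (F (i + 1))
  left : ∀ i a, t i a ∈ S i a
  right : ∀ i a, t (i + 1) a ∈ S i a
  disj : ∀ i a b, a ≠ b → Disjoint (S i a) (S i b)

theorem exists_chain (hr : ∀ u v, r u v → r v u) (hD : D.Infinite) (hDc : Con r D)
    (hloc : ∀ v ∈ D, {u | u ∈ D ∧ r v u}.Finite) (hS : ∃ c, Sp r D c) :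
    ∃ (s : ℕ) (F : ℕ → Set V) (t : ℕ → Fin s → V) (S : ℕ → Fin s → Set V),
      0 < s ∧ Chain r D s F t S := by
  classical
  obtain ⟨s, hs, hSp, F0, hF0D, hF0, hmin⟩ := exists_min hD hDc hS
  have hnext : ∀ F : {F : Set V // F ⊆ D ∧ F.Finite ∧ F0 ⊆ F},
      ∃ F' : {F : Set V // F ⊆ D ∧ F.Finite ∧ F0 ⊆ F}, F.1 ⊆ F'.1 ∧
        (∀ v ∈ F.1, ∀ u ∈ D, r v u → u ∈ F'.1) ∧ (bd r D F'.1).ncard = s := by
    rintro ⟨F, hFD, hF, hF0F⟩
    obtain ⟨F', h1, h2, h3, h4⟩ := hSp (F ∪ ⋃ v ∈ F, {u | u ∈ D ∧ r v u})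
      (Set.union_subset hFD (Set.iUnion₂_subset fun v _ u hu => hu.1))
      (hF.union (hF.biUnion fun v hv => hloc v (hFD hv)))
    refine ⟨⟨F', h1, h2, fun x hx => h3 (Or.inl (hF0F hx))⟩, fun x hx => h3 (Or.inl hx),
      fun v hv u hu hvu => h3 (Or.inr (Set.mem_iUnion₂.2 ⟨v, hv, hu, hvu⟩)), ?_⟩
    exact le_antisymm h4 (hmin F' h1 h2 (fun x hx => h3 (Or.inl (hF0F hx))))
  choose nx n1 n2 n3 using hnext
  set G : ℕ → {F : Set V // F ⊆ D ∧ F.Finite ∧ F0 ⊆ F} := fun i =>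
    Nat.rec (nx ⟨F0, hF0D, hF0, subset_rfl⟩) (fun _ F => nx F) i with hG
  have hGs : ∀ i, G (i + 1) = nx (G i) := fun i => rfl
  have hcard : ∀ i, (bd r D (G i).1).ncard = s := by
    intro i
    cases i with
    | zero => exact n3 _
    | succ i =>
      rw [hGs]
      exact n3 _
  have hmono : ∀ i, (G i).1 ⊆ (G (i + 1)).1 := fun i => by
    rw [hGs]
    exact n1 _
  have hnb : ∀ i, ∀ v ∈ (G i).1, ∀ u ∈ D, r v u → u ∈ (G (i + 1)).1 := fun i => by
    rw [hGs]
    exact n2 _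
  -- the labels
  have hlab : ∀ i (t : {t : Fin s → V // Function.Injective t ∧ Set.range t = bd r D (G i).1}),
      ∃ t' : {t : Fin s → V // Function.Injective t ∧ Set.range t = bd r D (G (i + 1)).1},
        ∃ C : Fin s → Set V, (∀ a, Con r (C a) ∧ C a ⊆ Lay r D (G i).1 (G (i + 1)).1 ∧
          t.1 a ∈ C a ∧ t'.1 a ∈ C a) ∧ ∀ a b, a ≠ b → Disjoint (C a) (C b) := by
    rintro i ⟨t, ht, htr⟩
    obtain ⟨t', h1, h2, h3⟩ := link_step hr hmin (G i).2.2.2 (G i).2.1 (G (i + 1)).2.1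
      (G (i + 1)).2.2.1 (hmono i) (hnb i) (hcard (i + 1)) ht htr
    exact ⟨⟨t', h1, h2⟩, h3⟩
  choose nt S hS1 hS2 using hlab
  obtain ⟨t0, ht0, ht0r⟩ : ∃ t : Fin s → V, Function.Injective t ∧
      Set.range t = bd r D (G 0).1 := by
    have hfin : (bd r D (G 0).1).Finite := (G 0).2.2.1.subset bd_sub
    have hc : hfin.toFinset.card = s := by
      rw [← Set.ncard_eq_toFinset_card _ hfin]
      exact hcard 0
    have e := hfin.toFinset.equivFinOfCardEq hc
    refine ⟨fun i => (e.symm i).1, fun i j h => e.symm.injective (Subtype.ext h), ?_⟩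
    ext v
    constructor
    · rintro ⟨i, rfl⟩
      exact (Set.Finite.mem_toFinset hfin).1 (e.symm i).2
    · intro hv
      refine ⟨e ⟨v, (Set.Finite.mem_toFinset hfin).2 hv⟩, ?_⟩
      simp
  set tt : (i : ℕ) → {t : Fin s → V // Function.Injective t ∧ Set.range t = bd r D (G i).1} :=
    fun i => Nat.rec ⟨t0, ht0, ht0r⟩ (fun i t => nt i t) i with htt
  have htts : ∀ i, tt (i + 1) = nt i (tt i) := fun i => rfl
  refine ⟨s, fun i => (G i).1, fun i => (tt i).1, fun i => S i (tt i), hs, ?_⟩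
  exact
    { sub := fun i => (G i).2.1
      fin := fun i => (G i).2.2.1
      mono := hmono
      cov := by
        have h0 : ∃ a ∈ D, a ∈ (G 0).1 := by
          have : t0 ⟨0, hs⟩ ∈ bd r D (G 0).1 := by
            rw [← ht0r]
            exact ⟨_, rfl⟩
          exact ⟨_, this.1, this.2.1⟩
        obtain ⟨a, haD, ha⟩ := h0
        intro v hv
        by_contra hcon
        obtain ⟨x, hx, hxZ, y, hy, hyZ, hxy⟩ := exists_cross (Z := {v | ∃ i, v ∈ (G i).1}) hDc
          haD ⟨0, ha⟩ hv hcon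
        obtain ⟨i, hi⟩ := hxZ
        exact hyZ ⟨i + 1, hnb i x hi y hy hxy⟩
      nb := hnb
      inj := fun i => (tt i).2.1
      range := fun i => (tt i).2.2
      con := fun i a => (hS1 i (tt i) a).1
      lay := fun i a => (hS1 i (tt i) a).2.1
      left := fun i a => (hS1 i (tt i) a).2.2.1
      right := fun i a => by
        rw [htts]
        exact (hS1 i (tt i) a).2.2.2
      disj := fun i => hS2 i (tt i) }

end SelfMinorPw
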