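import Pool.Agent.SelfMinorPw.Order

/-!
# Strips: finite labelled pieces with left and right ends
-/

namespace SelfMinorPw

open Relation SelfMinor SelfMinorPk

universe u

/-- branch sets of a labelled set in another one -/
structure Mc {V W : Type*} {q : ℕ} (r : V → V → Prop) (F : Set V) (lab : V → Fin q → Prop)
    (r' : W → W → Prop) (F' : Set W) (lab' : W → Fin q → Prop) (θ : V → Set W) : Prop where
  ne : ∀ v ∈ F, (θ v).Nonempty
  con : ∀ v ∈ F, Con r' (θ v)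
  sub : ∀ v ∈ F, θ v ⊆ F'
  disj : ∀ u ∈ F, ∀ v ∈ F, u ≠ v → Disjoint (θ u) (θ v)
  adj : ∀ u ∈ F, ∀ v ∈ F, r u v → u ≠ v → ∃ a ∈ θ u, ∃ b ∈ θ v, r' a b
  lb : ∀ v ∈ F, ∀ k, lab v k → ∃ w ∈ θ v, lab' w k

section mc

variable {V W W' : Type*} {q : ℕ} {r : V → V → Prop} {F F1 F2 : Set V} {lab : V → Fin q → Prop}
  {r' : W → W → Prop} {F' G G1 G2 : Set W} {lab' : W → Fin q → Prop} {θ θ1 θ2 : V → Set W}
  {r'' : W' → W' → Prop} {F'' : Set W'} {lab'' : W' → Fin q → Prop} {η : W → Set W'}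

lemma Mc.refl (r : V → V → Prop) (F : Set V) (lab : V → Fin q → Prop) :
    Mc r F lab r F lab (fun v => {v}) where
  ne v _ := Set.singleton_nonempty v
  con v _ := con_singleton r v
  sub _ hv := Set.singleton_subset_iff.2 hv
  disj _ _ _ _ h := Set.disjoint_singleton.2 h
  adj u _ v _ h _ := ⟨u, rfl, v, rfl, h⟩
  lb v _ _ h := ⟨v, rfl, h⟩

lemma Mc.comp (h1 : Mc r F lab r' F' lab' θ) (h2 : Mc r' F' lab' r'' F'' lab'' η) :
    Mc r F lab r'' F'' lab'' (fun v => ⋃ w ∈ θ v, η w) where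
  ne v hv := by
    obtain ⟨w, hw⟩ := h1.ne v hv
    obtain ⟨z, hz⟩ := h2.ne w (h1.sub v hv hw)
    exact ⟨z, Set.mem_iUnion₂.2 ⟨w, hw, hz⟩⟩
  con v hv := by
    refine con_biUnion (h1.con v hv) (fun w hw => h2.con w (h1.sub v hv hw)) ?_
    intro w hw w' hw' h hne
    exact h2.adj w (h1.sub v hv hw) w' (h1.sub v hv hw') h hne
  sub v hv := by
    intro z hz
    obtain ⟨w, hw, hz⟩ := Set.mem_iUnion₂.1 hz
    exact h2.sub w (h1.sub v hv hw) hz
  disj u hu v hv huv := by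
    rw [Set.disjoint_left]
    intro z hz hz'
    obtain ⟨w, hw, hz⟩ := Set.mem_iUnion₂.1 hz
    obtain ⟨w', hw', hz'⟩ := Set.mem_iUnion₂.1 hz'
    have hne : w ≠ w' := fun h => Set.disjoint_left.1 (h1.disj u hu v hv huv) hw (h ▸ hw')
    exact Set.disjoint_left.1 (h2.disj w (h1.sub u hu hw) w' (h1.sub v hv hw') hne) hz hz'
  adj u hu v hv huv hne := by
    obtain ⟨a, ha, b, hb, hab⟩ := h1.adj u hu v hv huv hne
    have hne' : a ≠ b := fun h => Set.disjoint_left.1 (h1.disj u hu v hv hne) ha (h ▸ hb)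
    obtain ⟨c, hc, d, hd, hcd⟩ := h2.adj a (h1.sub u hu ha) b (h1.sub v hv hb) hab hne'
    exact ⟨c, Set.mem_iUnion₂.2 ⟨a, ha, hc⟩, d, Set.mem_iUnion₂.2 ⟨b, hb, hd⟩, hcd⟩
  lb v hv k hk := by
    obtain ⟨w, hw, hwk⟩ := h1.lb v hv k hk
    obtain ⟨z, hz, hzk⟩ := h2.lb w (h1.sub v hv hw) k hwk
    exact ⟨z, Set.mem_iUnion₂.2 ⟨w, hw, hz⟩, hzk⟩

/-- extension of some branch sets by connected sets -/
lemma Mc.ext {ι : Type*} (hr' : ∀ u v, r' u v → r' v u) (h : Mc r F lab r' F' lab' θ)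
    (hF : F' ⊆ G) (p : ι → V) (x : ι → W) (E : ι → Set W) (hE : ∀ i, Con r' (E i))
    (hx : ∀ i, x i ∈ E i) (hxθ : ∀ i, x i ∈ θ (p i)) (hEF : ∀ i, ∀ w ∈ E i, w ∈ F' → w = x i)
    (hEE : ∀ i j, p i ≠ p j → ∀ w ∈ E i, w ∈ E j → w ∈ F') (hEG : ∀ i, E i ⊆ G) :
    Mc r F lab r' G lab' (fun v => {w | w ∈ θ v ∨ ∃ i, p i = v ∧ w ∈ E i}) where
  ne v hv := by
    obtain ⟨w, hw⟩ := h.ne v hv
    exact ⟨w, Or.inl hw⟩
  con v hv := by
    obtain ⟨z, hz⟩ := h.ne v hv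
    refine con_of_star (a := z) (fun w hw => ?_)
    rcases hw with hw | ⟨i, hi, hw⟩
    · exact ⟨θ v, fun y hy => Or.inl hy, h.con v hv, hz, hw⟩
    · refine ⟨θ v ∪ E i, ?_, ?_, Or.inl hz, Or.inr hw⟩
      · rintro y (hy | hy)
        · exact Or.inl hy
        · exact Or.inr ⟨i, hi, hy⟩
      · exact con_union hr' (h.con v hv) (hE i) (hi ▸ hxθ i) (hx i) (Or.inl rfl)
  sub v hv := by
    rintro w (hw | ⟨i, hi, hw⟩)
    · exact hF (h.sub v hv hw)
    · exact hEG i hw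
  disj u hu v hv huv := by
    rw [Set.disjoint_left]
    intro w hw hw'
    have key : ∀ v, (w ∈ θ v ∨ ∃ i, p i = v ∧ w ∈ E i) → w ∈ F' → w ∈ θ v := by
      rintro v (hw | ⟨i, hi, hw⟩) hwF
      · exact hw
      · rw [hEF i w hw hwF, ← hi]
        exact hxθ i
    by_cases hwF : w ∈ F'
    · exact Set.disjoint_left.1 (h.disj u hu v hv huv) (key u hw hwF) (key v hw' hwF)
    · rcases hw with hw | ⟨i, hi, hw⟩
      · exact hwF (h.sub u hu hw)
      · rcases hw' with hw' | ⟨j, hj, hw'⟩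
        · exact hwF (h.sub v hv hw')
        · refine hwF (hEE i j ?_ w hw hw')
          rw [hi, hj]
          exact huv
  adj u hu v hv huv hne := by
    obtain ⟨a, ha, b, hb, hab⟩ := h.adj u hu v hv huv hne
    exact ⟨a, Or.inl ha, b, Or.inl hb, hab⟩
  lb v hv k hk := by
    obtain ⟨w, hw, hwk⟩ := h.lb v hv k hk
    exact ⟨w, Or.inl hw, hwk⟩

/-- gluing -/
lemma Mc.glue {s : ℕ} (hr' : ∀ u v, r' u v → r' v u) (h1 : Mc r F1 lab r' G1 lab' θ1)
    (h2 : Mc r F2 lab r' G2 lab' θ2) {x : Fin s → V} {y : Fin s → W}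
    (hx : F1 ∩ F2 = Set.range x) (hy : G1 ∩ G2 = Set.range y)
    (hedge : ∀ u ∈ F1 ∪ F2, ∀ v ∈ F1 ∪ F2, r u v → (u ∈ F1 ∧ v ∈ F1) ∨ (u ∈ F2 ∧ v ∈ F2))
    (h1x : ∀ a, y a ∈ θ1 (x a)) (h2x : ∀ a, y a ∈ θ2 (x a)) :
    Mc r (F1 ∪ F2) lab r' (G1 ∪ G2) lab'
      (fun v => {w | (v ∈ F1 ∧ w ∈ θ1 v) ∨ (v ∈ F2 ∧ w ∈ θ2 v)}) := by
  have hx1 : ∀ a, x a ∈ F1 := fun a => (hx.symm.subset ⟨a, rfl⟩ : x a ∈ F1 ∩ F2).1
  have hx2 : ∀ a, x a ∈ F2 := fun a => (hx.symm.subset ⟨a, rfl⟩ : x a ∈ F1 ∩ F2).2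
  have key : ∀ u ∈ F1, ∀ v ∈ F2, ∀ w, w ∈ θ1 u → w ∈ θ2 v → u = v := by
    intro u hu v hv w hw hw'
    have hwG : w ∈ G1 ∩ G2 := ⟨h1.sub u hu hw, h2.sub v hv hw'⟩
    rw [hy] at hwG
    obtain ⟨a, rfl⟩ := hwG
    have e1 : u = x a := by
      by_contra hne
      exact Set.disjoint_left.1 (h1.disj u hu (x a) (hx1 a) hne) hw (h1x a)
    have e2 : v = x a := by
      by_contra hne
      exact Set.disjoint_left.1 (h2.disj v hv (x a) (hx2 a) hne) hw' (h2x a)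
    rw [e1, e2]
  exact
    { ne := by
        rintro v (hv | hv)
        · obtain ⟨w, hw⟩ := h1.ne v hv
          exact ⟨w, Or.inl ⟨hv, hw⟩⟩
        · obtain ⟨w, hw⟩ := h2.ne v hv
          exact ⟨w, Or.inr ⟨hv, hw⟩⟩
      con := by
        intro v hv
        by_cases hv1 : v ∈ F1
        · by_cases hv2 : v ∈ F2
          · obtain ⟨a, ha⟩ : v ∈ Set.range x := hx ▸ (⟨hv1, hv2⟩ : v ∈ F1 ∩ F2)
            subst ha
            have : {w | (x a ∈ F1 ∧ w ∈ θ1 (x a)) ∨ (x a ∈ F2 ∧ w ∈ θ2 (x a))} =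
                θ1 (x a) ∪ θ2 (x a) := by
              ext w
              exact ⟨fun h => h.imp (fun h => h.2) (fun h => h.2),
                fun h => h.imp (fun h => ⟨hv1, h⟩) (fun h => ⟨hv2, h⟩)⟩
            rw [this]
            exact con_union hr' (h1.con _ hv1) (h2.con _ hv2) (h1x a) (h2x a) (Or.inl rfl)
          · have : {w | (v ∈ F1 ∧ w ∈ θ1 v) ∨ (v ∈ F2 ∧ w ∈ θ2 v)} = θ1 v := by
              ext w
              exact ⟨fun h => h.elim (fun h => h.2) (fun h => absurd h.1 hv2),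
                fun h => Or.inl ⟨hv1, h⟩⟩
            rw [this]
            exact h1.con v hv1
        · have hv2 : v ∈ F2 := hv.resolve_left hv1
          have : {w | (v ∈ F1 ∧ w ∈ θ1 v) ∨ (v ∈ F2 ∧ w ∈ θ2 v)} = θ2 v := by
            ext w
            exact ⟨fun h => h.elim (fun h => absurd h.1 hv1) (fun h => h.2),
              fun h => Or.inr ⟨hv2, h⟩⟩
          rw [this]
          exact h2.con v hv2
      sub := by
        rintro v - w (⟨hv, hw⟩ | ⟨hv, hw⟩)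
        · exact Or.inl (h1.sub v hv hw)
        · exact Or.inr (h2.sub v hv hw)
      disj := by
        intro u _ v _ huv
        rw [Set.disjoint_left]
        rintro w (⟨hu, hw⟩ | ⟨hu, hw⟩) (⟨hv, hw'⟩ | ⟨hv, hw'⟩)
        · exact Set.disjoint_left.1 (h1.disj u hu v hv huv) hw hw'
        · exact huv (key u hu v hv w hw hw')
        · exact huv (key v hv u hu w hw' hw).symm
        · exact Set.disjoint_left.1 (h2.disj u hu v hv huv) hw hw'
      adj := by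
        intro u hu v hv huv hne
        rcases hedge u hu v hv huv with ⟨h, h'⟩ | ⟨h, h'⟩
        · obtain ⟨a, ha, b, hb, hab⟩ := h1.adj u h v h' huv hne
          exact ⟨a, Or.inl ⟨h, ha⟩, b, Or.inl ⟨h', hb⟩, hab⟩
        · obtain ⟨a, ha, b, hb, hab⟩ := h2.adj u h v h' huv hne
          exact ⟨a, Or.inr ⟨h, ha⟩, b, Or.inr ⟨h', hb⟩, hab⟩
      lb := by
        rintro v (hv | hv) k hk
        · obtain ⟨w, hw, hwk⟩ := h1.lb v hv k hk
          exact ⟨w, Or.inl ⟨hv, hw⟩, hwk⟩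
        · obtain ⟨w, hw, hwk⟩ := h2.lb v hv k hk
          exact ⟨w, Or.inr ⟨hv, hw⟩, hwk⟩ }

end mc

/-- a strip -/
structure Strip (q s : ℕ) : Type (u + 1) where
  V : Type u
  r : V → V → Prop
  symm : ∀ u v, r u v → r v u
  F : Set V
  fin : F.Finite
  l : Fin s → V
  t : Fin s → V
  lab : V → Fin q → Prop

/-- the minor relation of strips -/
def Lq {q s : ℕ} (P Q : Strip.{u} q s) : Prop :=
  ∃ θ : P.V → Set Q.V, Mc P.r P.F P.lab Q.r Q.F Q.lab θ ∧ (∀ a, Q.l a ∈ θ (P.l a)) ∧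
    ∀ a, Q.t a ∈ θ (P.t a)

lemma Lq.refl {q s : ℕ} (P : Strip.{u} q s) : Lq P P :=
  ⟨fun v => {v}, Mc.refl _ _ _, fun _ => rfl, fun _ => rfl⟩

lemma Lq.trans {q s : ℕ} {P Q R : Strip.{u} q s} (h1 : Lq P Q) (h2 : Lq Q R) : Lq P R := by
  obtain ⟨θ, a1, a2, a3⟩ := h1
  obtain ⟨η, b1, b2, b3⟩ := h2
  exact ⟨fun v => ⋃ w ∈ θ v, η w, a1.comp b1,
    fun a => Set.mem_iUnion₂.2 ⟨Q.l a, a2 a, b2 a⟩, fun a => Set.mem_iUnion₂.2 ⟨Q.t a, a3 a, b3 a⟩⟩

instance {q s : ℕ} : IsPreorder (Strip.{u} q s) Lq where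
  refl := Lq.refl
  trans _ _ _ := Lq.trans

/-- disjoint connected sets from the left ends to the right ends -/
structure Str {V : Type*} {s : ℕ} (r : V → V → Prop) (F : Set V) (l t : Fin s → V)
    (S : Fin s → Set V) : Prop where
  con : ∀ a, Con r (S a)
  sub : ∀ a, S a ⊆ F
  left : ∀ a, l a ∈ S a
  right : ∀ a, t a ∈ S a
  disj : ∀ a b, a ≠ b → Disjoint (S a) (S b)

section str

variable {V : Type*} {s : ℕ} {r : V → V → Prop} {F : Set V} {l t : Fin s → V} {S : Fin s → Set V}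

lemma Str.symm (h : Str r F l t S) : Str r F t l S :=
  ⟨h.con, h.sub, h.right, h.left, h.disj⟩

lemma Str.eq_of_mem (h : Str r F l t S) {a b : Fin s} {v : V} (h1 : v ∈ S a) (h2 : v ∈ S b) :
    a = b := by
  by_contra hne
  exact Set.disjoint_left.1 (h.disj a b hne) h1 h2

lemma Str.inj (h : Str r F l t S) : Function.Injective l := fun a b hab =>
  h.eq_of_mem (h.left a) (hab ▸ h.left b)

end str

/-- a factorization of a strip -/
inductive Fac {q s : ℕ} : Strip.{u} q s → Strip.{u} q s → Strip.{u} q s → Prop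
  | mk {V : Type u} {r : V → V → Prop} {symm : ∀ u v, r u v → r v u} {F F1 F2 : Set V}
      {fin : F.Finite} {fin1 : F1.Finite} {fin2 : F2.Finite} {l x t : Fin s → V}
      {lab : V → Fin q → Prop} {S1 S2 : Fin s → Set V} (hF : F1 ∪ F2 = F)
      (hx : F1 ∩ F2 = Set.range x)
      (hedge : ∀ u ∈ F1 ∪ F2, ∀ v ∈ F1 ∪ F2, r u v → (u ∈ F1 ∧ v ∈ F1) ∨ (u ∈ F2 ∧ v ∈ F2))
      (hS1 : Str r F1 l x S1) (hS2 : Str r F2 x t S2) (h12 : ¬ F1 ⊆ F2) (h21 : ¬ F2 ⊆ F1) :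
      Fac ⟨V, r, symm, F, fin, l, t, lab⟩ ⟨V, r, symm, F1, fin1, l, x, lab⟩
        ⟨V, r, symm, F2, fin2, x, t, lab⟩

section fac

variable {q s : ℕ} {P P1 P2 Q Q1 Q2 : Strip.{u} q s}

lemma Fac.rk (h : Fac P P1 P2) : P1.F.ncard < P.F.ncard ∧ P2.F.ncard < P.F.ncard := by
  obtain ⟨hF, hx, hedge, hS1, hS2, h12, h21⟩ := h
  rename_i V r symm F F1 F2 fin fin1 fin2 l x t lab S1 S2
  subst hF
  constructor
  · refine Set.ncard_lt_ncard ?_ fin
    refine ⟨Set.subset_union_left, fun h => h21 ?_⟩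
    exact Set.subset_union_right.trans h
  · refine Set.ncard_lt_ncard ?_ fin
    refine ⟨Set.subset_union_right, fun h => h12 ?_⟩
    exact Set.subset_union_left.trans h

lemma Fac.le_left (h : Fac P P1 P2) : Lq P1 P := by
  obtain ⟨hF, hx, hedge, hS1, hS2, h12, h21⟩ := h
  rename_i V r symm F F1 F2 fin fin1 fin2 l x t lab S1 S2
  subst hF
  have hx1 : ∀ a, x a ∈ F1 := fun a => (hx.symm.subset ⟨a, rfl⟩ : x a ∈ F1 ∩ F2).1
  have h := (Mc.refl r F1 lab).ext (G := F1 ∪ F2) symm Set.subset_union_left x x S2 hS2.con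
    hS2.left (fun i => rfl) ?_ ?_ (fun i => (hS2.sub i).trans Set.subset_union_right)
  · exact ⟨_, h, fun a => Or.inl rfl, fun a => Or.inr ⟨a, rfl, hS2.right a⟩⟩
  · intro i w hw hwF
    have : w ∈ F1 ∩ F2 := ⟨hwF, hS2.sub i hw⟩
    rw [hx] at this
    obtain ⟨j, rfl⟩ := this
    rw [hS2.eq_of_mem hw (hS2.left j)]
  · intro i j hij w hw hw'
    exact absurd (congrArg x (hS2.eq_of_mem hw hw')) hij

lemma Fac.le_right (h : Fac P P1 P2) : Lq P2 P := by
  obtain ⟨hF, hx, hedge, hS1, hS2, h12, h21⟩ := h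
  rename_i V r symm F F1 F2 fin fin1 fin2 l x t lab S1 S2
  subst hF
  have h := (Mc.refl r F2 lab).ext (G := F1 ∪ F2) symm Set.subset_union_right x x S1 hS1.con
    hS1.right (fun i => rfl) ?_ ?_ (fun i => (hS1.sub i).trans Set.subset_union_left)
  · exact ⟨_, h, fun a => Or.inr ⟨a, rfl, hS1.left a⟩, fun a => Or.inl rfl⟩
  · intro i w hw hwF
    have : w ∈ F1 ∩ F2 := ⟨hS1.sub i hw, hwF⟩
    rw [hx] at this
    obtain ⟨j, rfl⟩ := this
    rw [hS1.eq_of_mem hw (hS1.right j)]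
  · intro i j hij w hw hw'
    exact absurd (congrArg x (hS1.eq_of_mem hw hw')) hij

lemma Fac.glue (h : Fac P P1 P2) (h' : Fac Q Q1 Q2) (e1 : Lq P1 Q1) (e2 : Lq P2 Q2) :
    Lq P Q := by
  obtain ⟨hF, hx, hedge, hS1, hS2, h12, h21⟩ := h
  rename_i V r symm F F1 F2 fin fin1 fin2 l x t lab S1 S2
  subst hF
  obtain ⟨hG, hy, hedge', hT1, hT2, h12', h21'⟩ := h'
  rename_i W r' symm' G G1 G2 fin' fin1' fin2' l' y t' lab' T1 T2
  subst hG
  obtain ⟨θ1, a1, a2, a3⟩ := e1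
  obtain ⟨θ2, b1, b2, b3⟩ := e2
  refine ⟨_, a1.glue symm' b1 hx hy hedge a3 b2, fun a => Or.inl ⟨?_, a2 a⟩,
    fun a => Or.inr ⟨?_, b3 a⟩⟩
  · exact hS1.sub a (hS1.left a)
  · exact hS2.sub a (hS2.right a)

end fac

open Set.PartiallyWellOrderedOn in
/-- minimal bad sequences with factorizations into two factors -/
theorem pwo_of_factor {α : Type*} (R : α → α → Prop) [IsPreorder α R] (rk : α → ℕ)
    (s irr : Set α) (hirr : irr.PartiallyWellOrderedOn R) (fac : α → α → α → Prop)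
    (h : ∀ P ∈ s, P ∈ irr ∨ ∃ P1 ∈ s, ∃ P2 ∈ s, fac P P1 P2)
    (hrk : ∀ P P1 P2, fac P P1 P2 → rk P1 < rk P ∧ rk P2 < rk P)
    (hl : ∀ P P1 P2, fac P P1 P2 → R P1 P) (hr : ∀ P P1 P2, fac P P1 P2 → R P2 P)
    (hg : ∀ P P1 P2 Q Q1 Q2, fac P P1 P2 → fac Q Q1 Q2 → R P1 Q1 → R P2 Q2 → R P Q) :
    s.PartiallyWellOrderedOn R := by
  classical
  rw [iff_not_exists_isMinBadSeq rk]
  rintro ⟨f, hf, hmin⟩
  -- eventually factored
  obtain ⟨N, hN⟩ : ∃ N, ∀ n ≥ N, f n ∉ irr := by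
    by_contra hcon
    push Not at hcon
    have hinf : {n | f n ∈ irr}.Infinite := by
      rw [Set.infinite_iff_frequently_cofinite, Nat.cofinite_eq_atTop, Filter.frequently_atTop]
      exact fun N => by
        obtain ⟨n, hn, hn'⟩ := hcon N
        exact ⟨n, hn, hn'⟩
    obtain ⟨i, j, hij, hR⟩ := hirr.exists_lt (f := fun k => f (Nat.nth (fun n => f n ∈ irr) k))
      (fun k => Nat.nth_mem_of_infinite hinf k)
    exact hf.2 _ _ (Nat.nth_strictMono hinf hij) hR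
  have h1 : ∀ n, ∃ a b, N ≤ n → (a ∈ s ∧ b ∈ s ∧ fac (f n) a b) := by
    intro n
    by_cases hn : N ≤ n
    · rcases h (f n) (hf.1 n) with h2 | ⟨a, ha, b, hb, hab⟩
      · exact absurd h2 (hN n hn)
      · exact ⟨a, b, fun _ => ⟨ha, hb, hab⟩⟩
    · exact ⟨f n, f n, fun h => absurd h hn⟩
  choose a b hab using h1
  have hFc : {x | ∃ n, N ≤ n ∧ (x = a n ∨ x = b n)}.PartiallyWellOrderedOn R := by
    rw [iff_forall_not_isBadSeq]
    rintro g ⟨hg1, hg2⟩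
    choose i hi hgi using hg1
    have hgs : ∀ k, g k ∈ s := by
      intro k
      rcases hgi k with h | h
      · rw [h]; exact (hab _ (hi k)).1
      · rw [h]; exact (hab _ (hi k)).2.1
    have hgr : ∀ k, R (g k) (f (i k)) := by
      intro k
      rcases hgi k with h | h
      · rw [h]; exact hl _ _ _ (hab _ (hi k)).2.2
      · rw [h]; exact hr _ _ _ (hab _ (hi k)).2.2
    have hgrk : ∀ k, rk (g k) < rk (f (i k)) := by
      intro k
      rcases hgi k with h | h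
      · rw [h]; exact (hrk _ _ _ (hab _ (hi k)).2.2).1
      · rw [h]; exact (hrk _ _ _ (hab _ (hi k)).2.2).2
    obtain ⟨k0, hk0⟩ : ∃ k0, ∀ k, i k0 ≤ i k := ⟨Function.argmin i, fun k =>
      Function.argmin_le i k⟩
    refine hmin (i k0) (fun m => if m < i k0 then f m else g (k0 + (m - i k0))) ?_ ?_ ⟨?_, ?_⟩
    · intro m hm
      exact (if_pos hm).symm
    · have e : (if i k0 < i k0 then f (i k0) else g (k0 + (i k0 - i k0))) = g k0 := by
        rw [if_neg (lt_irrefl _), Nat.sub_self, Nat.add_zero]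
      rw [e]
      exact hgrk k0
    · intro m
      dsimp only
      by_cases hm : m < i k0
      · rw [if_pos hm]
        exact hf.1 m
      · rw [if_neg hm]
        exact hgs _
    · intro m n hmn
      dsimp only
      by_cases hm : m < i k0
      · rw [if_pos hm]
        by_cases hn : n < i k0
        · rw [if_pos hn]
          exact hf.2 m n hmn
        · rw [if_neg hn]
          intro hR
          exact hf.2 m _ (lt_of_lt_of_le hm (hk0 _)) (_root_.trans hR (hgr _))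
      · rw [if_neg hm, if_neg (fun h => hm (hmn.trans h))]
        exact hg2 _ _ (by omega)
  obtain ⟨g, hg1⟩ := hFc.exists_monotone_subseq (f := fun n => a (N + n))
    (fun n => ⟨N + n, Nat.le_add_right N n, Or.inl rfl⟩)
  obtain ⟨i, j, hij, hR⟩ := hFc.exists_lt (f := fun n => b (N + g n))
    (fun n => ⟨N + g n, Nat.le_add_right _ _, Or.inr rfl⟩)
  refine hf.2 (N + g i) (N + g j) (Nat.add_lt_add_left (g.strictMono hij) N) ?_
  exact hg _ _ _ _ _ _ (hab _ (Nat.le_add_right _ _)).2.2 (hab _ (Nat.le_add_right _ _)).2.2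
    (hg1 i j hij.le) hR

end SelfMinorPw
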