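import Pool.Agent.SelfMinorPk.Star
import Pool.Agent.SelfMinorPw.Order

/-!
# An infinite graph with bounded cuts has a star or a one-ended locally finite part
-/

namespace SelfMinorPw

open Relation SelfMinor SelfMinorPk

universe u

variable {V : Type u} {r : V → V → Prop} {C D F H I K L U X Y Z : Set V}

/-- the elements of `I` with a neighbour in `D` outside `I` -/
def bd (r : V → V → Prop) (D I : Set V) : Set V := {x | x ∈ D ∧ x ∈ I ∧ ∃ y ∈ D, y ∉ I ∧ r x y}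

/-- no star -/
def NS (r : V → V → Prop) (U : Set V) : Prop := ∀ X : Set V, X.Finite → (Comps r U X).Finite

/-- one-ended -/
def OE (r : V → V → Prop) (D : Set V) : Prop :=
  ∀ Z : Set V, Z.Finite → ∀ a ∈ D \ Z, ∀ b ∈ D \ Z, (cc r (D \ Z) a).Infinite →
    (cc r (D \ Z) b).Infinite → b ∈ cc r (D \ Z) a

lemma Nb_cc (Z : Set V) {a : V} (ha : a ∈ H \ Z) : Nb r (cc r (H \ Z) a) ⊆ Z ∪ Nb r H := by
  rintro v ⟨hv, u, hu, huv⟩
  have huH := cc_subset ha hu
  by_cases hvH : v ∈ H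
  · left
    by_contra hvZ
    exact hv (cc_closed hu huH ⟨hvH, hvZ⟩ huv)
  · exact Or.inr ⟨hvH, u, huH.1, huv⟩

lemma fin_comps (hr : ∀ u v, r u v → r v u) (hNS : NS r U) (hHU : H ⊆ U)
    (hN : (Nb r H).Finite) (hZ : Z.Finite) :
    {a | a ∈ H \ Z ∧ (cc r (H \ Z) a).Finite}.Finite := by
  have h1 := hNS (Z ∪ Nb r H) (hZ.union hN)
  have h2 : (⋃₀ (Comps r U (Z ∪ Nb r H))).Finite :=
    h1.sUnion (fun C hC => hC.2.1)
  refine h2.subset ?_
  rintro a ⟨ha, hfin⟩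
  refine Set.mem_sUnion.2 ⟨cc r (H \ Z) a, ⟨?_, hfin, ⟨a, mem_cc _ _⟩, con_cc hr a, ?_,
    Nb_cc Z ha⟩, mem_cc _ _⟩
  · exact (cc_subset ha).trans (fun x hx => hHU hx.1)
  · rw [Set.disjoint_left]
    intro x hx hx'
    have hxH := cc_subset ha hx
    rcases hx' with h | h
    · exact hxH.2 h
    · exact h.1 hxH.1

lemma exists_inf_cc (hr : ∀ u v, r u v → r v u) (hNS : NS r U) (hHU : H ⊆ U)
    (hH : H.Infinite) (hN : (Nb r H).Finite) (hZ : Z.Finite) :
    ∃ a ∈ H \ Z, (cc r (H \ Z) a).Infinite := by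
  by_contra hcon
  push Not at hcon
  refine (hH.sdiff hZ) ((fin_comps hr hNS hHU hN hZ).subset ?_)
  intro a ha
  refine ⟨ha, ?_⟩
  have := hcon a ha
  simpa using this

/-- finite connected sets containing given vertices -/
lemma exists_fin_path (hr : ∀ u v, r u v → r v u) (hK : Con r K) {a b : V} (ha : a ∈ K)
    (hb : b ∈ K) : ∃ T ⊆ K, T.Finite ∧ Con r T ∧ a ∈ T ∧ b ∈ T := by
  have h := hK a ha b hb
  clear hb
  induction h with
  | refl => exact ⟨{a}, Set.singleton_subset_iff.2 ha, Set.finite_singleton a,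
      con_singleton r a, rfl, rfl⟩
  | @tail c d _ h2 ih =>
    obtain ⟨T, hT, hTf, hTc, haT, hcT⟩ := ih
    exact ⟨insert d T, Set.insert_subset h2.2.2 hT, hTf.insert d, con_insert hr hTc hcT h2.1,
      Or.inr haT, Or.inl rfl⟩

lemma exists_fin_con (hr : ∀ u v, r u v → r v u) (hK : Con r K) {a : V} (ha : a ∈ K)
    (hY : Y.Finite) (hYK : Y ⊆ K) : ∃ T ⊆ K, T.Finite ∧ Con r T ∧ a ∈ T ∧ Y ⊆ T := by
  have h1 : ∀ y, ∃ T ⊆ K, T.Finite ∧ Con r T ∧ a ∈ T ∧ (y ∈ Y → y ∈ T) := by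
    intro y
    by_cases hy : y ∈ Y
    · obtain ⟨T, h1, h2, h3, h4, h5⟩ := exists_fin_path hr hK ha (hYK hy)
      exact ⟨T, h1, h2, h3, h4, fun _ => h5⟩
    · exact ⟨{a}, Set.singleton_subset_iff.2 ha, Set.finite_singleton a,
        con_singleton r a, rfl, fun h => absurd h hy⟩
  choose T t1 t2 t3 t4 t5 using h1
  refine ⟨{a} ∪ ⋃ y ∈ Y, T y, ?_, ?_, ?_, Or.inl rfl, ?_⟩
  · refine Set.union_subset (Set.singleton_subset_iff.2 ha) ?_
    exact Set.iUnion₂_subset fun y _ => t1 y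
  · exact (Set.finite_singleton a).union (hY.biUnion fun y _ => t2 y)
  · refine con_of_star (a := a) (fun u hu => ?_)
    rcases hu with hu | hu
    · rw [Set.mem_singleton_iff] at hu
      subst hu
      exact ⟨{u}, Set.subset_union_left, con_singleton r u, rfl, rfl⟩
    · obtain ⟨y, hy, hu⟩ := Set.mem_iUnion₂.1 hu
      refine ⟨T y, ?_, t3 y, t4 y, hu⟩
      exact (Set.subset_biUnion_of_mem (u := T) hy).trans Set.subset_union_right
  · intro y hy
    exact Or.inr (Set.mem_iUnion₂.2 ⟨y, hy, t5 y hy⟩)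

lemma OE.cofinite (hr : ∀ u v, r u v → r v u) (hNS : NS r U) (hDU : D ⊆ U)
    (hD : D.Infinite) (hN : (Nb r D).Finite) (hOE : OE r D) (hZ : Z.Finite) :
    ∃ K ⊆ D \ Z, Con r K ∧ (D \ K).Finite := by
  obtain ⟨a, ha, hinf⟩ := exists_inf_cc hr hNS hDU hD hN hZ
  refine ⟨cc r (D \ Z) a, cc_subset ha, con_cc hr a, ?_⟩
  refine (hZ.union (fin_comps hr hNS hDU hN hZ)).subset ?_
  rintro b ⟨hbD, hb⟩
  by_cases hbZ : b ∈ Z
  · exact Or.inl hbZ
  · right
    refine ⟨⟨hbD, hbZ⟩, ?_⟩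
    by_contra hcon
    exact hb (hOE Z hZ a ha b ⟨hbD, hbZ⟩ hinf hcon)

section order

variable [LinearOrder V]

lemma bd_small {w : ℕ} (h : Wd r (· < ·) D w)
    (hI : ∀ x ∈ D, x ∈ I → ∀ y ∈ D, y ∉ I → x < y) :
    (bd r D I).Finite ∧ (bd r D I).ncard ≤ w := by
  classical
  have key : ∀ A : Finset V, (A : Set V) ⊆ bd r D I → A.card ≤ w := by
    intro A hA
    have h1 : ∀ x, ∃ y, x ∈ bd r D I → (y ∈ D ∧ y ∉ I ∧ r x y) := by
      intro x
      by_cases hx : x ∈ bd r D I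
      · obtain ⟨_, _, y, h1, h2, h3⟩ := hx
        exact ⟨y, fun _ => ⟨h1, h2, h3⟩⟩
      · exact ⟨x, fun h => absurd h hx⟩
    choose f hf using h1
    refine h A (A.image f) (fun a ha => (hA ha).1) ?_ ?_ ?_
    · intro b hb
      obtain ⟨a, ha, rfl⟩ := Finset.mem_image.1 (Finset.mem_coe.1 hb)
      exact (hf a (hA ha)).1
    · intro a ha b hb
      obtain ⟨c, hc, rfl⟩ := Finset.mem_image.1 hb
      exact hI a (hA ha).1 (hA ha).2.1 _ (hf c (hA hc)).1 (hf c (hA hc)).2.1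
    · intro a ha
      exact ⟨f a, Finset.mem_image_of_mem f ha, (hf a (hA ha)).2.2⟩
  have hfin : (bd r D I).Finite := by
    by_contra hinf
    obtain ⟨A, hA, hAc⟩ := Set.Infinite.exists_subset_card_eq hinf (w + 1)
    have := key A hA
    omega
  refine ⟨hfin, ?_⟩
  rw [Set.ncard_eq_toFinset_card _ hfin]
  exact key _ (by rw [Set.Finite.coe_toFinset])

lemma cross_core {w : ℕ} (hW : Wd r (· < ·) D (w + 1)) {T : Set V} (hT : Con r T) (hTD : T ⊆ D)
    {A B : Finset V} (hA : (A : Set V) ⊆ D) (hB : (B : Set V) ⊆ D) (hAT : ∀ a ∈ A, a ∉ T)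
    (hAB : ∀ a ∈ A, ∀ b ∈ B, a < b) (hadj : ∀ a ∈ A, ∃ b ∈ B, r a b) (hcard : w < A.card)
    {c : V} (hc : c ∈ A) (hmax : ∀ a ∈ A, a ≤ c) :
    ∀ c1 ∈ T, ∀ c3 ∈ T, c1 < c → c < c3 → False := by
  classical
  intro c1 h1 c3 h3 h13 h33
  obtain ⟨u, huT, hu, v, hvT, hv, huv⟩ := exists_cross (Z := Set.Iic c) hT h1
    (Set.mem_Iic.2 h13.le) h3 (fun h => absurd (Set.mem_Iic.1 h) (not_le.2 h33))
  have hu' : u ≤ c := hu
  have hv' : c < v := not_le.1 hv
  have h := hW (insert u A) (insert v B) ?_ ?_ ?_ ?_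
  · rw [Finset.card_insert_of_notMem (fun h => hAT u h huT)] at h
    omega
  · rw [Finset.coe_insert]
    exact Set.insert_subset (hTD huT) hA
  · rw [Finset.coe_insert]
    exact Set.insert_subset (hTD hvT) hB
  · intro a ha b hb
    have h4 : a ≤ c := by
      rcases Finset.mem_insert.1 ha with rfl | ha
      · exact hu'
      · exact hmax a ha
    have h5 : c < b := by
      rcases Finset.mem_insert.1 hb with rfl | hb
      · exact hv'
      · exact hAB c hc b hb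
    exact lt_of_le_of_lt h4 h5
  · intro a ha
    rcases Finset.mem_insert.1 ha with rfl | ha
    · exact ⟨v, Finset.mem_insert_self _ _, huv⟩
    · obtain ⟨b, hb, hab⟩ := hadj a ha
      exact ⟨b, Finset.mem_insert_of_mem hb, hab⟩

/-- data witnessing that `Wd` fails -/
lemma not_Wd {w : ℕ} (h : ¬ Wd r (· < ·) H w) : ∃ A B : Finset V, (A : Set V) ⊆ H ∧
    (B : Set V) ⊆ H ∧ (∀ a ∈ A, ∀ b ∈ B, a < b) ∧ (∀ a ∈ A, ∃ b ∈ B, r a b) ∧ w < A.card ∧
    ∃ c ∈ A, ∀ a ∈ A, a ≤ c := by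
  unfold Wd at h
  push Not at h
  obtain ⟨A, B, hA, hB, h1, h2, h3⟩ := h
  have hne : A.Nonempty := Finset.card_pos.1 (by omega)
  exact ⟨A, B, hA, hB, h1, h2, h3, A.max' hne, A.max'_mem hne, fun a ha => A.le_max' a ha⟩

/-- three branches -/
lemma three {w : ℕ} (hW : Wd r (· < ·) D (w + 1)) {H1 H2 H3 T12 T13 T23 : Set V}
    (h1 : H1 ⊆ D) (h2 : H2 ⊆ D) (h3 : H3 ⊆ D)
    (c12 : Con r T12) (c13 : Con r T13) (c23 : Con r T23)
    (t12 : T12 ⊆ D) (t13 : T13 ⊆ D) (t23 : T23 ⊆ D)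
    (a1 : H1 ⊆ T12) (a2 : H2 ⊆ T12) (b1 : H1 ⊆ T13) (b3 : H3 ⊆ T13) (d2 : H2 ⊆ T23)
    (d3 : H3 ⊆ T23) (e1 : Disjoint H1 T23) (e2 : Disjoint H2 T13) (e3 : Disjoint H3 T12) :
    Wd r (· < ·) H1 w ∨ Wd r (· < ·) H2 w ∨ Wd r (· < ·) H3 w := by
  by_contra hcon
  push Not at hcon
  obtain ⟨n1, n2, n3⟩ := hcon
  obtain ⟨A1, B1, hA1, hB1, p1, q1, k1, c1, hc1, m1⟩ := not_Wd n1
  obtain ⟨A2, B2, hA2, hB2, p2, q2, k2, c2, hc2, m2⟩ := not_Wd n2
  obtain ⟨A3, B3, hA3, hB3, p3, q3, k3, c3, hc3, m3⟩ := not_Wd n3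
  have g1 := cross_core hW c23 t23 (hA1.trans h1) (hB1.trans h1)
    (fun a ha => Set.disjoint_left.1 e1 (hA1 ha)) p1 q1 k1 hc1 m1
  have g2 := cross_core hW c13 t13 (hA2.trans h2) (hB2.trans h2)
    (fun a ha => Set.disjoint_left.1 e2 (hA2 ha)) p2 q2 k2 hc2 m2
  have g3 := cross_core hW c12 t12 (hA3.trans h3) (hB3.trans h3)
    (fun a ha => Set.disjoint_left.1 e3 (hA3 ha)) p3 q3 k3 hc3 m3
  have hc1' := hA1 hc1
  have hc2' := hA2 hc2
  have hc3' := hA3 hc3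
  have n12 : c1 ≠ c2 := fun h => Set.disjoint_left.1 e1 hc1' (h ▸ d2 hc2')
  have n13 : c1 ≠ c3 := fun h => Set.disjoint_left.1 e1 hc1' (h ▸ d3 hc3')
  have n23 : c2 ≠ c3 := fun h => Set.disjoint_left.1 e2 hc2' (h ▸ b3 hc3')
  rcases lt_or_gt_of_ne n12 with h12 | h12 <;> rcases lt_or_gt_of_ne n23 with h23 | h23 <;>
    rcases lt_or_gt_of_ne n13 with h13 | h13
  · exact g2 _ (b1 hc1') _ (b3 hc3') h12 h23
  · exact g2 _ (b1 hc1') _ (b3 hc3') h12 h23
  · exact g3 _ (a1 hc1') _ (a2 hc2') h13 h23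
  · exact g1 _ (d3 hc3') _ (d2 hc2') h13 h12
  · exact g1 _ (d2 hc2') _ (d3 hc3') h12 h13
  · exact g3 _ (a2 hc2') _ (a1 hc1') h23 h13
  · exact g2 _ (b3 hc3') _ (b1 hc1') h23 h12
  · exact g2 _ (b3 hc3') _ (b1 hc1') h23 h12

/-- one-ended parts exist -/
theorem exists_OE (hr : ∀ u v, r u v → r v u) (hNS : NS r U) : ∀ (w : ℕ) (D : Set V), D ⊆ U →
    D.Infinite → Con r D → (Nb r D).Finite → Wd r (· < ·) D w →
    ∃ D' ⊆ D, D'.Infinite ∧ Con r D' ∧ (Nb r D').Finite ∧ OE r D' := by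
  intro w
  induction w with
  | zero =>
    intro D _ hD hDc _ hW
    exfalso
    obtain ⟨a, ha⟩ := hD.nonempty
    obtain ⟨b, hb, hba⟩ := (hD.sdiff (Set.finite_singleton a)).nonempty
    obtain ⟨u, hu, hua, v, hv, hva, huv⟩ := exists_cross (Z := {a}) hDc ha rfl hb hba
    have hne : u ≠ v := by
      rintro rfl
      exact hva hua
    rcases lt_or_gt_of_ne hne with h | h
    · have := hW {u} {v} (by simpa using hu) (by simpa using hv) (by simpa using h)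
        (by simpa using huv)
      simp at this
    · have := hW {v} {u} (by simpa using hv) (by simpa using hu) (by simpa using h)
        (by simpa using hr _ _ huv)
      simp at this
  | succ w ih =>
    intro D hDU hD hDc hDN hW
    by_cases hOE : OE r D
    · exact ⟨D, subset_rfl, hD, hDc, hDN, hOE⟩
    unfold OE at hOE
    push Not at hOE
    obtain ⟨Z, hZ, a, ha, b, hb, hainf, hbinf, hab⟩ := hOE
    have hD1s : cc r (D \ Z) a ⊆ D \ Z := cc_subset ha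
    have hD2s : cc r (D \ Z) b ⊆ D \ Z := cc_subset hb
    have hD1N : (Nb r (cc r (D \ Z) a)).Finite := (hZ.union hDN).subset (Nb_cc Z ha)
    by_cases hOE1 : OE r (cc r (D \ Z) a)
    · exact ⟨_, hD1s.trans Set.sdiff_subset, hainf, con_cc hr a, hD1N, hOE1⟩
    have hd12 : Disjoint (cc r (D \ Z) a) (cc r (D \ Z) b) := by
      rw [Set.disjoint_left]
      intro x hx hx'
      apply hab
      have e1 := cc_eq_of_mem hr ha hx
      have e2 := cc_eq_of_mem hr hb hx'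
      rw [← e1, e2]
      exact mem_cc _ _
    set D1 := cc r (D \ Z) a with hD1
    set D2 := cc r (D \ Z) b with hD2
    unfold OE at hOE1
    push Not at hOE1
    obtain ⟨Z', hZ', a', ha', b', hb', hainf', hbinf', hab'⟩ := hOE1
    have hE1s : cc r (D1 \ Z') a' ⊆ D1 \ Z' := cc_subset ha'
    have hE2s : cc r (D1 \ Z') b' ⊆ D1 \ Z' := cc_subset hb'
    have hE12 : Disjoint (cc r (D1 \ Z') a') (cc r (D1 \ Z') b') := by
      rw [Set.disjoint_left]
      intro x hx hx'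
      apply hab'
      have e1 := cc_eq_of_mem hr ha' hx
      have e2 := cc_eq_of_mem hr hb' hx'
      rw [← e1, e2]
      exact mem_cc _ _
    obtain ⟨T, hTD, hTf, hTc, haT, hZT⟩ := exists_fin_con hr hDc ha.1
      (Y := (Z ∪ Z') ∩ D) ((hZ.union hZ').subset Set.inter_subset_left) Set.inter_subset_right
    -- refinement
    have hND1 : Nb r D1 ⊆ Z ∪ Nb r D := Nb_cc Z ha
    have hND2 : Nb r D2 ⊆ Z ∪ Nb r D := Nb_cc Z hb
    have hNDD : ∀ v ∈ Nb r D, v ∉ D := fun v hv => hv.1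
    have key : ∀ H : Set V, H ⊆ D → H.Infinite → (Nb r H).Finite → Nb r H ∩ D ⊆ T →
        ∃ H' ⊆ H, H'.Infinite ∧ Con r H' ∧ (Nb r H').Finite ∧ Disjoint H' T ∧
          ∃ u ∈ H', ∃ t ∈ T, r u t := by
      intro H hHD hHi hHN hHT
      obtain ⟨h, hh, hinf⟩ := exists_inf_cc hr hNS (hHD.trans hDU) hHi hHN hTf
      have hsub : cc r (H \ T) h ⊆ H \ T := cc_subset hh
      refine ⟨cc r (H \ T) h, hsub.trans Set.sdiff_subset, hinf, con_cc hr h,
        (hTf.union hHN).subset (Nb_cc T hh), ?_, ?_⟩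
      · rw [Set.disjoint_left]
        exact fun x hx => (hsub hx).2
      · obtain ⟨u, huD, hu, v, hv, hvn, huv⟩ := exists_cross (Z := cc r (H \ T) h) hDc
          (hHD hh.1) (mem_cc _ _) ha.1 (fun h => (hsub h).2 haT)
        refine ⟨u, hu, v, ?_, huv⟩
        rcases Nb_cc T hh ⟨hvn, u, hu, huv⟩ with h | h
        · exact h
        · exact hHT ⟨h, hv⟩
    have hE1D : cc r (D1 \ Z') a' ⊆ D := fun x hx => (hD1s (hE1s hx).1).1
    have hE2D : cc r (D1 \ Z') b' ⊆ D := fun x hx => (hD1s (hE2s hx).1).1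
    have hNE1 : Nb r (cc r (D1 \ Z') a') ⊆ Z' ∪ (Z ∪ Nb r D) :=
      (Nb_cc Z' ha').trans (Set.union_subset_union_right _ hND1)
    have hNE2 : Nb r (cc r (D1 \ Z') b') ⊆ Z' ∪ (Z ∪ Nb r D) :=
      (Nb_cc Z' hb').trans (Set.union_subset_union_right _ hND1)
    have hin : ∀ v, v ∈ Z' ∪ (Z ∪ Nb r D) → v ∈ D → v ∈ T := by
      rintro v (h | h | h) hv
      · exact hZT ⟨Or.inr h, hv⟩
      · exact hZT ⟨Or.inl h, hv⟩
      · exact absurd hv (hNDD v h)
    obtain ⟨H1, s1, i1, c1, f1, g1, u1, hu1, t1, ht1, e1⟩ := key _ hE1D hainf'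
      ((hZ'.union (hZ.union hDN)).subset hNE1) (fun v hv => hin v (hNE1 hv.1) hv.2)
    obtain ⟨H2, s2, i2, c2, f2, g2, u2, hu2, t2, ht2, e2⟩ := key _ hE2D hbinf'
      ((hZ'.union (hZ.union hDN)).subset hNE2) (fun v hv => hin v (hNE2 hv.1) hv.2)
    obtain ⟨H3, s3, i3, c3, f3, g3, u3, hu3, t3, ht3, e3⟩ := key D2
      (fun x hx => (hD2s hx).1) hbinf ((hZ.union hDN).subset hND2)
      (fun v hv => hin v (Or.inr (hND2 hv.1)) hv.2)
    have dis12 : Disjoint H1 H2 := hE12.mono s1 s2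
    have dis13 : Disjoint H1 H3 := hd12.mono (fun x hx => (hE1s (s1 hx)).1) s3
    have dis23 : Disjoint H2 H3 := hd12.mono (fun x hx => (hE2s (s2 hx)).1) s3
    have hH1D : H1 ⊆ D := s1.trans hE1D
    have hH2D : H2 ⊆ D := s2.trans hE2D
    have hH3D : H3 ⊆ D := s3.trans (fun x hx => (hD2s hx).1)
    have con1 : Con r (H1 ∪ T) := con_union hr c1 hTc hu1 ht1 (Or.inr e1)
    have con2 : Con r (H2 ∪ T) := con_union hr c2 hTc hu2 ht2 (Or.inr e2)
    have con3 : Con r (H3 ∪ T) := con_union hr c3 hTc hu3 ht3 (Or.inr e3)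
    have con12 : Con r ((H1 ∪ T) ∪ (H2 ∪ T)) :=
      con_union hr con1 con2 (Or.inr haT) (Or.inr haT) (Or.inl rfl)
    have con13 : Con r ((H1 ∪ T) ∪ (H3 ∪ T)) :=
      con_union hr con1 con3 (Or.inr haT) (Or.inr haT) (Or.inl rfl)
    have con23 : Con r ((H2 ∪ T) ∪ (H3 ∪ T)) :=
      con_union hr con2 con3 (Or.inr haT) (Or.inr haT) (Or.inl rfl)
    have hth := three hW hH1D hH2D hH3D con12 con13 con23
      (Set.union_subset (Set.union_subset hH1D hTD) (Set.union_subset hH2D hTD))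
      (Set.union_subset (Set.union_subset hH1D hTD) (Set.union_subset hH3D hTD))
      (Set.union_subset (Set.union_subset hH2D hTD) (Set.union_subset hH3D hTD))
      (fun x hx => Or.inl (Or.inl hx)) (fun x hx => Or.inr (Or.inl hx))
      (fun x hx => Or.inl (Or.inl hx)) (fun x hx => Or.inr (Or.inl hx))
      (fun x hx => Or.inl (Or.inl hx)) (fun x hx => Or.inr (Or.inl hx))
      (by
        rw [Set.disjoint_union_right, Set.disjoint_union_right, Set.disjoint_union_right]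
        exact ⟨⟨dis12, g1⟩, dis13, g1⟩)
      (by
        rw [Set.disjoint_union_right, Set.disjoint_union_right, Set.disjoint_union_right]
        exact ⟨⟨dis12.symm, g2⟩, dis23, g2⟩)
      (by
        rw [Set.disjoint_union_right, Set.disjoint_union_right, Set.disjoint_union_right]
        exact ⟨⟨dis13.symm, g3⟩, dis23.symm, g3⟩)
    rcases hth with h | h | h
    · obtain ⟨D', k1, k2, k3, k4, k5⟩ := ih H1 (hH1D.trans hDU) i1 c1 f1 h
      exact ⟨D', k1.trans hH1D, k2, k3, k4, k5⟩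
    · obtain ⟨D', k1, k2, k3, k4, k5⟩ := ih H2 (hH2D.trans hDU) i2 c2 f2 h
      exact ⟨D', k1.trans hH2D, k2, k3, k4, k5⟩
    · obtain ⟨D', k1, k2, k3, k4, k5⟩ := ih H3 (hH3D.trans hDU) i3 c3 f3 h
      exact ⟨D', k1.trans hH3D, k2, k3, k4, k5⟩

/-- initial segments are finite or cofinite -/
lemma init_fin (hr : ∀ u v, r u v → r v u) (hNS : NS r U) (hDU : D ⊆ U)
    (hD : D.Infinite) (hN : (Nb r D).Finite) (hOE : OE r D) {w : ℕ}
    (hW : Wd r (· < ·) D w) (hI : ∀ x ∈ D, x ∈ I → ∀ y ∈ D, y ∉ I → x < y) :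
    (D ∩ I).Finite ∨ (D \ I).Finite := by
  obtain ⟨K, hK, hKc, hKf⟩ := hOE.cofinite hr hNS hDU hD hN (bd_small hW hI).1
  have hKne : K.Nonempty := by
    by_contra hne
    rw [Set.not_nonempty_iff_eq_empty] at hne
    rw [hne, Set.sdiff_empty] at hKf
    exact hD hKf
  obtain ⟨a, ha⟩ := hKne
  have hno : ∀ u ∈ K, u ∈ I → ∀ v ∈ K, v ∉ I → ¬ r u v := fun u hu huI v hv hvI huv =>
    (hK hu).2 ⟨(hK hu).1, huI, v, (hK hv).1, hvI, huv⟩
  by_cases haI : a ∈ I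
  · right
    refine hKf.subset ?_
    rintro x ⟨hx, hxI⟩
    refine ⟨hx, fun hxK => ?_⟩
    obtain ⟨u, hu, huI, v, hv, hvI, huv⟩ := exists_cross hKc ha haI hxK hxI
    exact hno u hu huI v hv hvI huv
  · left
    refine hKf.subset ?_
    rintro x ⟨hx, hxI⟩
    refine ⟨hx, fun hxK => ?_⟩
    obtain ⟨u, hu, huI, v, hv, hvI, huv⟩ := exists_cross hKc hxK hxI ha haI
    exact hno u hu huI v hv hvI huv

/-- the lower part -/
lemma low_init : ∀ x ∈ D, x ∈ {x | (D ∩ Set.Iic x).Finite} → ∀ y ∈ D,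
    y ∉ {x | (D ∩ Set.Iic x).Finite} → x < y := by
  intro x _ hx y _ hy
  by_contra hcon
  push Not at hcon
  refine hy (Set.Finite.subset hx ?_)
  rintro z ⟨hz, hzy⟩
  exact ⟨hz, le_trans hzy hcon⟩

/-- bounded separators around finite sets -/
theorem exists_sep (hr : ∀ u v, r u v → r v u) (hNS : NS r U) (hDU : D ⊆ U)
    (hD : D.Infinite) (hN : (Nb r D).Finite) (hOE : OE r D) {w : ℕ}
    (hW : Wd r (· < ·) D w) : ∃ c, ∀ F : Set V, F ⊆ D → F.Finite → ∃ F' ⊆ D, F'.Finite ∧ F ⊆ F' ∧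
      (bd r D F').ncard ≤ c := by
  classical
  -- the two cases
  obtain ⟨Q, hQD, hQ, hQF⟩ : ∃ Q ⊆ D, Q.Finite ∧ ∀ F : Set V, F ⊆ D → F.Finite → ∃ I P : Set V,
      (∀ x ∈ D, x ∈ I → ∀ y ∈ D, y ∉ I → x < y) ∧ (P = D ∩ I ∨ P = D \ I) ∧ P.Finite ∧
      F ⊆ P ∪ Q := by
    rcases init_fin hr hNS hDU hD hN hOE hW (low_init (D := D)) with h | h
    · refine ⟨_, Set.inter_subset_left, h, fun F hFD hF => ?_⟩
      obtain ⟨t0, ht0, ht0'⟩ : (D \ (D ∩ {x | (D ∩ Set.Iic x).Finite})).Nonempty :=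
        (hD.sdiff h).nonempty
      obtain ⟨t, ht, ht', hmin⟩ : ∃ t ∈ D, t ∉ {x | (D ∩ Set.Iic x).Finite} ∧
          ∀ x ∈ F, x ∉ {x | (D ∩ Set.Iic x).Finite} → t ≤ x := by
        rcases (F \ {x | (D ∩ Set.Iic x).Finite}).eq_empty_or_nonempty with he | hne
        · refine ⟨t0, ht0, fun h => ht0' ⟨ht0, h⟩, fun x hx hx' => ?_⟩
          have : x ∈ F \ {x | (D ∩ Set.Iic x).Finite} := ⟨hx, hx'⟩
          rw [he] at this
          exact absurd this (Set.notMem_empty x)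
        · obtain ⟨t, ht, hmin⟩ := Set.exists_min_image _ id (hF.subset Set.sdiff_subset) hne
          exact ⟨t, hFD ht.1, ht.2, fun x hx hx' => hmin x ⟨hx, hx'⟩⟩
      refine ⟨Set.Iio t, D \ Set.Iio t, fun x _ hx y _ hy => lt_of_lt_of_le hx (not_lt.1 hy),
        Or.inr rfl, ?_, ?_⟩
      · rcases init_fin (I := Set.Iio t) hr hNS hDU hD hN hOE hW
          (fun x _ hx y _ hy => lt_of_lt_of_le hx (not_lt.1 hy)) with h1 | h1
        · exfalso
          apply ht'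
          refine Set.Finite.subset (h1.insert t) ?_
          rintro z ⟨hz, hzt⟩
          rcases eq_or_lt_of_le (Set.mem_Iic.1 hzt) with h2 | h2
          · exact Or.inl h2
          · exact Or.inr ⟨hz, h2⟩
        · exact h1
      · intro x hx
        by_cases hxL : x ∈ {x | (D ∩ Set.Iic x).Finite}
        · exact Or.inr ⟨hFD hx, hxL⟩
        · exact Or.inl ⟨hFD hx, not_lt.2 (hmin x hx hxL)⟩
    · refine ⟨_, Set.sdiff_subset, h, fun F hFD hF => ?_⟩
      obtain ⟨t0, ht0, ht0'⟩ : (D \ (D \ {x | (D ∩ Set.Iic x).Finite})).Nonempty :=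
        (hD.sdiff h).nonempty
      have ht0L : t0 ∈ {x | (D ∩ Set.Iic x).Finite} := by
        by_contra hcon
        exact ht0' ⟨ht0, hcon⟩
      obtain ⟨t, ht, hmax⟩ : ∃ t ∈ {x | (D ∩ Set.Iic x).Finite},
          ∀ x ∈ F, x ∈ {x | (D ∩ Set.Iic x).Finite} → x ≤ t := by
        rcases (F ∩ {x | (D ∩ Set.Iic x).Finite}).eq_empty_or_nonempty with he | hne
        · refine ⟨t0, ht0L, fun x hx hx' => ?_⟩
          have : x ∈ F ∩ {x | (D ∩ Set.Iic x).Finite} := ⟨hx, hx'⟩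
          rw [he] at this
          exact absurd this (Set.notMem_empty x)
        · obtain ⟨t, ht, hmax⟩ := Set.exists_max_image _ id (hF.subset Set.inter_subset_left) hne
          exact ⟨t, ht.2, fun x hx hx' => hmax x ⟨hx, hx'⟩⟩
      refine ⟨Set.Iic t, D ∩ Set.Iic t, fun x _ hx y _ hy =>
        lt_of_le_of_lt (Set.mem_Iic.1 hx) (not_le.1 hy), Or.inl rfl, ht, ?_⟩
      intro x hx
      by_cases hxL : x ∈ {x | (D ∩ Set.Iic x).Finite}
      · exact Or.inl ⟨hFD hx, hmax x hx hxL⟩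
      · exact Or.inr ⟨hFD hx, hxL⟩
  refine ⟨w + Q.ncard, fun F hFD hF => ?_⟩
  obtain ⟨I, P, hI, hP, hPf, hFP⟩ := hQF F hFD hF
  obtain ⟨hb1, hb2⟩ := bd_small hW hI
  have hPD : P ⊆ D := by
    rcases hP with rfl | rfl
    · exact Set.inter_subset_left
    · exact Set.sdiff_subset
  refine ⟨P ∪ bd r D I ∪ Q, ?_, (hPf.union hb1).union hQ, ?_, ?_⟩
  · exact Set.union_subset (Set.union_subset hPD fun x hx => hx.1) hQD
  · intro x hx
    rcases hFP hx with h | h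
    · exact Or.inl (Or.inl h)
    · exact Or.inr h
  · have hsub : bd r D (P ∪ bd r D I ∪ Q) ⊆ bd r D I ∪ Q := by
      rintro v ⟨hvD, hv, y, hyD, hy, hvy⟩
      rcases hv with (hv | hv) | hv
      · by_cases hvb : v ∈ bd r D I
        · exact Or.inl hvb
        · exfalso
          have hyP : y ∉ P := fun h => hy (Or.inl (Or.inl h))
          have hyb : y ∉ bd r D I := fun h => hy (Or.inl (Or.inr h))
          rcases hP with rfl | rfl
          · exact hvb ⟨hvD, hv.2, y, hyD, fun h => hyP ⟨hyD, h⟩, hvy⟩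
          · have hyI : y ∈ I := by
              by_contra h
              exact hyP ⟨hyD, h⟩
            exact hyb ⟨hyD, hyI, v, hvD, hv.2, hr _ _ hvy⟩
      · exact Or.inl hv
      · exact Or.inr hv
    refine (Set.ncard_le_ncard hsub (hb1.union hQ)).trans ?_
    refine (Set.ncard_union_le _ _).trans ?_
    omega

/-- finitely many vertices of infinite degree -/
theorem fin_inf_deg (hr : ∀ u v, r u v → r v u) (hNS : NS r U) (hDU : D ⊆ U)
    (hD : D.Infinite) (hN : (Nb r D).Finite) (hOE : OE r D) {w : ℕ}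
    (hW : Wd r (· < ·) D w) : {x | x ∈ D ∧ {u | u ∈ D ∧ r x u}.Infinite}.Finite := by
  classical
  rcases init_fin hr hNS hDU hD hN hOE hW (low_init (D := D)) with h | h
  · refine h.subset ?_
    rintro x ⟨hxD, hx⟩
    refine ⟨hxD, ?_⟩
    by_contra hxL
    have hIio : ∀ z ∈ D, z ∈ Set.Iio x → ∀ y ∈ D, y ∉ Set.Iio x → z < y :=
      fun z _ hz y _ hy => lt_of_lt_of_le hz (not_lt.1 hy)
    have hP : (D \ Set.Iio x).Finite := by
      rcases init_fin (I := Set.Iio x) hr hNS hDU hD hN hOE hW hIio with h1 | h1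
      · exfalso
        apply hxL
        refine Set.Finite.subset (h1.insert x) ?_
        rintro z ⟨hz, hzt⟩
        rcases eq_or_lt_of_le (Set.mem_Iic.1 hzt) with h2 | h2
        · exact Or.inl h2
        · exact Or.inr ⟨hz, h2⟩
      · exact h1
    refine (hx.sdiff hP) ((bd_small hW hIio).1.subset ?_)
    rintro u ⟨⟨huD, hxu⟩, hu⟩
    have hux : u ∈ Set.Iio x := by
      by_contra hcon
      exact hu ⟨huD, hcon⟩
    exact ⟨huD, hux, x, hxD, fun h => lt_irrefl x h, hr _ _ hxu⟩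
  · by_contra hinf
    have hinf2 := Set.Infinite.sdiff hinf h
    obtain ⟨A, hA, hAc⟩ := Set.Infinite.exists_subset_card_eq hinf2 (w + 1)
    have hne : A.Nonempty := Finset.card_pos.1 (by omega)
    have hAL : ∀ a ∈ A, (D ∩ Set.Iic a).Finite := by
      intro a ha
      by_contra hcon
      exact (hA ha).2 ⟨(hA ha).1.1, hcon⟩
    have hIic : ∀ z ∈ D, z ∈ Set.Iic (A.max' hne) → ∀ y ∈ D, y ∉ Set.Iic (A.max' hne) → z < y :=
      fun z _ hz y _ hy => lt_of_le_of_lt (Set.mem_Iic.1 hz) (not_le.1 hy)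
    obtain ⟨b1, b2⟩ := bd_small hW hIic
    have hsub : (A : Set V) ⊆ bd r D (Set.Iic (A.max' hne)) := by
      intro a ha
      have ha' := (hA ha).1
      obtain ⟨y, ⟨hyD, hay⟩, hy⟩ := (ha'.2.sdiff (hAL _ (A.max'_mem hne))).nonempty
      exact ⟨ha'.1, A.le_max' a ha, y, hyD, fun h => hy ⟨hyD, h⟩, hay⟩
    have := Set.ncard_le_ncard hsub b1
    rw [Set.ncard_coe_finset] at this
    omega

end order

/-- the structure theorem -/
theorem exists_part (hr : ∀ u v, r u v → r v u) (hNS : NS r U) (hU : U.Infinite)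
    (hN : (Nb r U).Finite) {w : ℕ} {lt : V → V → Prop} (hlt : IsStrictTotalOrder V lt)
    (hW : Wd r lt U w) :
    ∃ D ⊆ U, D.Infinite ∧ Con r D ∧ (Nb r D).Finite ∧ (∀ v ∈ D, {u | u ∈ D ∧ r v u}.Finite) ∧
      ∃ c, ∀ F : Set V, F ⊆ D → F.Finite → ∃ F' ⊆ D, F'.Finite ∧ F ⊆ F' ∧
        (bd r D F').ncard ≤ c := by
  classical
  let _ : LinearOrder V := linearOrderOfSTO lt
  have hW' : Wd r (· < ·) U w := hW
  obtain ⟨a, ha, hainf⟩ := exists_inf_cc hr hNS subset_rfl hU hN Set.finite_empty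
  have hCU : cc r (U \ ∅) a ⊆ U := (cc_subset ha).trans Set.sdiff_subset
  obtain ⟨D, hDC, hD, hDc, hDN, hOE⟩ := exists_OE hr hNS w (cc r (U \ ∅) a) hCU hainf
    (con_cc hr a) ((Set.finite_empty.union hN).subset (Nb_cc ∅ ha)) (hW'.mono hCU)
  have hDU := hDC.trans hCU
  have hWD := hW'.mono hDU
  obtain ⟨c, hc⟩ := exists_sep hr hNS hDU hD hDN hOE hWD
  have hX := fin_inf_deg hr hNS hDU hD hDN hOE hWD
  obtain ⟨K, hK, hKc, hKf⟩ := hOE.cofinite hr hNS hDU hD hDN hX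
  have hKD : K ⊆ D := hK.trans Set.sdiff_subset
  have hKi : K.Infinite := by
    intro h
    exact hD ((hKf.union h).subset (by
      intro x hx
      by_cases hxK : x ∈ K
      · exact Or.inr hxK
      · exact Or.inl ⟨hx, hxK⟩))
  refine ⟨K, hKD.trans hDU, hKi, hKc, ?_, ?_, c, ?_⟩
  · refine (hKf.union hDN).subset ?_
    rintro v ⟨hv, u, hu, huv⟩
    by_cases hvD : v ∈ D
    · exact Or.inl ⟨hvD, hv⟩
    · exact Or.inr ⟨hvD, u, hKD hu, huv⟩
  · intro v hv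
    have h1 : v ∉ {x | x ∈ D ∧ {u | u ∈ D ∧ r x u}.Infinite} := (hK hv).2
    have h2 : {u | u ∈ D ∧ r v u}.Finite := by
      by_contra hcon
      exact h1 ⟨hKD hv, hcon⟩
    exact h2.subset fun u hu => ⟨hKD hu.1, hu.2⟩
  · intro F hFK hF
    obtain ⟨F', hF'D, hF'f, hFF', hcard⟩ := hc F (hFK.trans hKD) hF
    refine ⟨F' ∩ K, Set.inter_subset_right, hF'f.subset Set.inter_subset_left,
      fun x hx => ⟨hFF' hx, hFK hx⟩, ?_⟩
    refine (Set.ncard_le_ncard ?_ (hF'f.subset (t := bd r D F') fun x hx => hx.2.1)).trans hcard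
    rintro v ⟨hvK, hv, y, hyK, hy, hvy⟩
    exact ⟨hKD hvK, hv.1, y, hKD hyK, fun h => hy ⟨h, hyK⟩, hvy⟩

end SelfMinorPw
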